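import Pool.Agent.Run7.h82.P6.M21c
import Pool.Agent.H933R2.Hopf.Comb

/-!
# The averaged inequalities
-/

set_option autoImplicit false

open scoped BigOperators

namespace Pool.Agent.Run7.h82.P6

open Hopf6 Hopf6.B2

variable {R : Ten} {ι : Type} [Fintype ι]

/-- the average of a linear combination of the monomials -/
noncomputable def AV (R : Ten) (c0 c1 c2 c3 c4 c5 c6 c7 c8 c9 c10 c11 c12 c13 c14 c15 c16 c17 c18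
    c19 c20 c21 : ℝ) : ℝ :=
  c0 + c1 * ((1/6) * (sc R)) + c2 * ((1/48) * (sc R ^ 2) + (1/24) * (nR R))
    + c3 * ((1/480) * (sc R ^ 3) + (1/80) * (sc R * nR R) + (1/60) * (I4 R))
    + c4 * ((1/48) * (nR R) + (1/32) * (nS R))
    + c5 * ((1/480) * (sc R * nR R) + (1/320) * (sc R * nS R) + (1/120) * (I5 R) + (1/80) * (I6 R))
    + c6 * ((1/6) * (nR R)) + c7 * ((1/48) * (sc R * nR R) + (1/24) * (I5 R))
    + c8 * ((1/6) * (nR R)) + c9 * ((1/48) * (sc R * nR R) + (1/24) * (I4 R))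
    + c10 * ((1/6) * (nS R)) + c11 * ((1/48) * (sc R * nS R) + (1/24) * (I6 R))
    + c12 * ((1/480) * (I4 R) + (3/320) * (I6 R) + (7/960) * (I7 R) + (-1/480) * (I8 R))
    + c13 * ((1/48) * (I4 R) + (1/32) * (I6 R)) + c14 * ((1/6) * (I4 R))
    + c15 * ((1/48) * (I4 R) + (-1/48) * (I5 R)) + c16 * ((1/6) * (I6 R))
    + c17 * ((1/48) * (I6 R) + (1/32) * (I7 R))
    + c18 * ((1/48) * (I6 R) + (1/96) * (I7 R) + (-1/48) * (I8 R)) + c19 * ((1/6) * (I5 R))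
    + c20 * ((1/48) * (I5 R) + (-1/192) * (I7 R) + (1/24) * (I8 R))
    + c21 * ((1/48) * (I5 R) + (1/32) * (I6 R))

theorem av_AV (D : Design ι) (hR : IsCurv R) (c0 c1 c2 c3 c4 c5 c6 c7 c8 c9 c10 c11 c12 c13 c14
    c15 c16 c17 c18 c19 c20 c21 : ℝ)
    (h : ∀ i, 0 ≤ comb R c0 c1 c2 c3 c4 c5 c6 c7 c8 c9 c10 c11 c12 c13 c14 c15 c16 c17 c18 c19
      c20 c21 (D.X i)) :
    0 ≤ AV R c0 c1 c2 c3 c4 c5 c6 c7 c8 c9 c10 c11 c12 c13 c14 c15 c16 c17 c18 c19 c20 c21 := by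
  have h1 := D.av_nonneg h
  rw [av_comb D hR] at h1
  exact h1

/-- averages of `tr (P J P)` -/
theorem avA1 (D : Design ι) (hR : IsCurv R)
    (h0 : ∀ x y, 0 ≤ quad R x y) (p0 p1 p2 p3 p4 : ℝ) :
    0 ≤ AV R
      (0) ((p0 ^ 2) + 2 * p0 * p1 * sc R + (p1 ^ 2) * (sc R ^ 2))
      (2 * p0 * p2 + 2 * p1 * p2 * sc R) ((p2 ^ 2)) (2 * p0 * p3 + 2 * p1 * p3 * sc R)
      (2 * p2 * p3) (2 * p0 * p4 + 2 * p1 * p4 * sc R) (2 * p2 * p4) (0) (0) (0) (0) ((p3 ^ 2))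
      (2 * p3 * p4) ((p4 ^ 2)) ((-1) * (p4 ^ 2)) (0) (0) (0) (0) (0) (0) := by
  refine av_AV D hR _ _ _ _ _ _ _ _ _ _ _ _ _ _ _ _ _ _ _ _ _ _ fun i => ?_
  refine (fJ_nonneg hR (D.unit i) (h0 _) (p0 + p1 * sc R + p2 * jx R (D.X i)) p3 p4).trans
    (le_of_eq ?_)
  unfold comb fJ
  ring

/-- averages of `tr (P (1 - J) P)` -/
theorem avA2 (D : Design ι) (hR : IsCurv R)
    (h1 : ∀ x y, quad R x y ≤ area2 x y) (p0 p1 p2 p3 p4 : ℝ) :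
    0 ≤ AV R
      (nR R * (p4 ^ 2) + 5 * (p0 ^ 2) + 10 * p0 * p1 * sc R + 2 * p0 * p4 * sc R + 5 * (p1 ^ 2) * (sc R ^ 2) + 2 * p1 * p4 * (sc R ^ 2))
      ((-1) * (p0 ^ 2) + (-2) * p0 * p1 * sc R + 10 * p0 * p2 + 2 * p0 * p3 + (-2) * p0 * p4 + (-1) * (p1 ^ 2) * (sc R ^ 2) + 10 * p1 * p2 * sc R + 2 * p1 * p3 * sc R + (-2) * p1 * p4 * sc R + 2 * p2 * p4 * sc R)
      ((-2) * p0 * p2 + (-2) * p1 * p2 * sc R + 5 * (p2 ^ 2) + 2 * p2 * p3 + (-2) * p2 * p4 + (p4 ^ 2))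
      ((-1) * (p2 ^ 2)) ((-2) * p0 * p3 + (-2) * p1 * p3 * sc R + (p3 ^ 2)) ((-2) * p2 * p3)
      ((-2) * p0 * p4 + (-2) * p1 * p4 * sc R + 2 * p3 * p4) ((-2) * p2 * p4) ((-2) * (p4 ^ 2))
      (0) (0) (0) ((-1) * (p3 ^ 2)) ((-2) * p3 * p4) ((-1) * (p4 ^ 2)) ((p4 ^ 2)) (0) (0) (0)
      (0) (0) (0) := by
  refine av_AV D hR _ _ _ _ _ _ _ _ _ _ _ _ _ _ _ _ _ _ _ _ _ _ fun i => ?_
  have h := up_ineq hR (D.unit i) (M := 1) (fun y => by rw [one_mul]; exact h1 _ y)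
    (p0 + p1 * sc R + p2 * jx R (D.X i)) p3 p4
  rw [one_mul, ← sub_nonneg] at h
  refine h.trans (le_of_eq ?_)
  unfold comb fJ f0
  ring

/-- averages of the first inequality for the block `[2, 1]` -/
theorem avM1 (D : Design ι) (hR : IsCurv R)
    (h0 : ∀ x y, 0 ≤ quad R x y) (b1 b2 γ : ℝ) :
    0 ≤ AV R
      (0)
      (2 * (b2 ^ 2) * nR R + (-1 / 2) * (b2 ^ 2) * (sc R ^ 2) + (-4 / 3) * b2 * nR R * γ + 1 / 3 * b2 * (sc R ^ 2) * γ + 2 / 9 * nR R * (γ ^ 2) + (-1 / 18) * (sc R ^ 2) * (γ ^ 2))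
      ((-1) * b1 * b2 * sc R + 1 / 3 * b1 * sc R * γ + (b2 ^ 2) * sc R + (-1) * b2 * sc R * γ + 2 / 9 * sc R * (γ ^ 2))
      ((-1 / 2) * (b1 ^ 2) + b1 * b2 + (-2 / 3) * b1 * γ + 3 / 2 * (b2 ^ 2) + (-2 / 3) * b2 * γ)
      (b1 * b2 * sc R + (-1 / 3) * b1 * sc R * γ + 4 / 3 * b2 * sc R * γ + (-4 / 9) * sc R * (γ ^ 2))
      (3 * (b1 ^ 2) + (-1) * b1 * b2 + 10 / 3 * b1 * γ + 8 / 3 * b2 * γ + (-2 / 9) * (γ ^ 2))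
      ((b2 ^ 2) * sc R + (-5 / 3) * b2 * sc R * γ + 4 / 9 * sc R * (γ ^ 2))
      (5 * b1 * b2 + (-8 / 3) * b1 * γ + (-1) * (b2 ^ 2) + 10 / 3 * b2 * γ + (-4 / 3) * (γ ^ 2))
      (0) ((-4) * (b2 ^ 2) + 8 / 3 * b2 * γ + (-4 / 9) * (γ ^ 2)) (0) (0)
      ((-5 / 2) * (b1 ^ 2) + (-8 / 3) * b1 * γ + 8 / 9 * (γ ^ 2))
      ((-5) * b1 * b2 + 8 / 3 * b1 * γ + (-8 / 3) * b2 * γ + 20 / 9 * (γ ^ 2))
      ((-5 / 2) * (b2 ^ 2) + 8 / 3 * b2 * γ + (-10 / 9) * (γ ^ 2))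
      (5 / 2 * (b2 ^ 2) + (-8 / 3) * b2 * γ + 10 / 9 * (γ ^ 2)) ((γ ^ 2)) ((-1) * (γ ^ 2))
      ((-2) * (γ ^ 2)) (4 * b2 * γ + (-4 / 3) * (γ ^ 2)) (4 * b1 * γ + 4 / 3 * (γ ^ 2))
      ((-8) * b2 * γ + 8 / 3 * (γ ^ 2)) := by
  refine av_AV D hR _ _ _ _ _ _ _ _ _ _ _ _ _ _ _ _ _ _ _ _ _ _ fun i => ?_
  refine (M1x hR (D.unit i) (h0 _) (-(b1 * jx R (D.X i) + b2 * (sc R - jx R (D.X i))) / 5)
    b1 b2 γ (by ring)).trans (le_of_eq ?_)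
  unfold comb fJ f0 Z1 Z2 nW g221
  ring

/-- averages of the second inequality for the block `[2, 1]` -/
theorem avM2 (D : Design ι) (hR : IsCurv R)
    (h1 : ∀ x y, quad R x y ≤ area2 x y) (b1 b2 γ : ℝ) :
    0 ≤ AV R
      (15 / 2 * (b2 ^ 2) * nR R + (-3 / 2) * (b2 ^ 2) * (sc R ^ 2) + (-4 / 3) * nR R * (γ ^ 2) + nS R * (γ ^ 2) + 1 / 6 * (sc R ^ 2) * (γ ^ 2))
      ((-3) * b1 * b2 * sc R + (-2) * (b2 ^ 2) * nR R + 3 * (b2 ^ 2) * sc R + 1 / 2 * (b2 ^ 2) * (sc R ^ 2) + 4 / 3 * b2 * nR R * γ + (-1 / 3) * b2 * (sc R ^ 2) * γ + (-2 / 9) * nR R * (γ ^ 2) + 1 / 18 * (sc R ^ 2) * (γ ^ 2) + (-2 / 3) * sc R * (γ ^ 2))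
      ((-3 / 2) * (b1 ^ 2) + 3 * b1 * b2 + b1 * b2 * sc R + (-1 / 3) * b1 * sc R * γ + 6 * (b2 ^ 2) + (-1) * (b2 ^ 2) * sc R + b2 * sc R * γ + (-2 / 9) * sc R * (γ ^ 2) + (-2 / 3) * (γ ^ 2))
      (1 / 2 * (b1 ^ 2) + (-1) * b1 * b2 + 2 / 3 * b1 * γ + (-3 / 2) * (b2 ^ 2) + 2 / 3 * b2 * γ)
      (15 / 2 * (b1 ^ 2) + (-1) * b1 * b2 * sc R + 1 / 3 * b1 * sc R * γ + (-4 / 3) * b2 * sc R * γ + 4 / 9 * sc R * (γ ^ 2) + 8 / 3 * (γ ^ 2))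
      ((-3) * (b1 ^ 2) + b1 * b2 + (-10 / 3) * b1 * γ + (-8 / 3) * b2 * γ + 2 / 9 * (γ ^ 2))
      (15 * b1 * b2 + (-1) * (b2 ^ 2) * sc R + 5 / 3 * b2 * sc R * γ + (-4 / 9) * sc R * (γ ^ 2) + 8 / 3 * (γ ^ 2))
      ((-5) * b1 * b2 + 8 / 3 * b1 * γ + (b2 ^ 2) + (-10 / 3) * b2 * γ + 4 / 3 * (γ ^ 2))
      ((-15) * (b2 ^ 2) + 8 / 3 * (γ ^ 2)) (4 * (b2 ^ 2) + (-8 / 3) * b2 * γ + 4 / 9 * (γ ^ 2))
      ((-4) * (γ ^ 2)) (0) (5 / 2 * (b1 ^ 2) + 8 / 3 * b1 * γ + (-8 / 9) * (γ ^ 2))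
      (5 * b1 * b2 + (-8 / 3) * b1 * γ + 8 / 3 * b2 * γ + (-20 / 9) * (γ ^ 2))
      (5 / 2 * (b2 ^ 2) + (-8 / 3) * b2 * γ + 10 / 9 * (γ ^ 2))
      ((-5 / 2) * (b2 ^ 2) + 8 / 3 * b2 * γ + (-10 / 9) * (γ ^ 2)) ((-1) * (γ ^ 2)) ((γ ^ 2))
      (2 * (γ ^ 2)) ((-4) * b2 * γ + 4 / 3 * (γ ^ 2)) ((-4) * b1 * γ + (-4 / 3) * (γ ^ 2))
      (8 * b2 * γ + (-8 / 3) * (γ ^ 2)) := by
  refine av_AV D hR _ _ _ _ _ _ _ _ _ _ _ _ _ _ _ _ _ _ _ _ _ _ fun i => ?_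
  refine (M2x hR (D.unit i) (h1 _) (-(b1 * jx R (D.X i) + b2 * (sc R - jx R (D.X i))) / 5)
    b1 b2 γ (by ring)).trans (le_of_eq ?_)
  unfold comb fJ f0 Z1 Z2 nW g221
  ring

/-- averages of `tr J |W|² - 3 J_ab W_acde W_bcde` -/
theorem avD1 (D : Design ι) (hR : IsCurv R)
    (h0 : ∀ x y, 0 ≤ quad R x y) :
    0 ≤ AV R
      (0) ((-2) * nR R + nS R + 1 / 3 * (sc R ^ 2)) ((-4 / 3) * sc R) ((-2 / 3)) (4 / 3 * sc R)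
      (10 / 3) ((-4 / 3) * sc R) (20 / 3) (0) (4) (0) ((-4)) ((-8 / 3)) ((-20 / 3)) (10 / 3)
      ((-10 / 3)) ((-3)) (3) (6) (4) ((-4)) ((-8)) := by
  refine av_AV D hR _ _ _ _ _ _ _ _ _ _ _ _ _ _ _ _ _ _ _ _ _ _ fun i => ?_
  refine (weyl_nonneg0 hR (D.unit i) (h0 _)).trans (le_of_eq ?_)
  unfold comb g221
  ring

/-- averages of `|W|²` -/
theorem avW (D : Design ι) (hR : IsCurv R) :
    0 ≤ AV R
      ((-4 / 3) * nR R + nS R + 1 / 6 * (sc R ^ 2)) ((-2 / 3) * sc R) ((-2 / 3)) (0) (8 / 3)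
      (0) (8 / 3) (0) (8 / 3) (0) ((-4)) (0) (0) (0) (0) (0) (0) (0) (0) (0) (0) (0) := by
  refine av_AV D hR _ _ _ _ _ _ _ _ _ _ _ _ _ _ _ _ _ _ _ _ _ _ fun i => ?_
  have h : 0 ≤ nS (Wt R (D.X i)) := by
    unfold nS
    exact Finset.sum_nonneg fun a _ => Finset.sum_nonneg fun b _ => Finset.sum_nonneg fun c _ =>
      Finset.sum_nonneg fun d _ => mul_self_nonneg _
  rw [nS_Wt hR (D.unit i)] at h
  refine h.trans (le_of_eq ?_)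
  unfold comb nW
  ring

/-- `|Ric|² ≥ s² / 6` -/
theorem R0_nonneg (R : Ten) : 0 ≤ nR R - 1 / 6 * sc R ^ 2 := by
  have h1 : ∑ a, Rc R a a * Rc R a a ≤ nR R := by
    unfold nR
    exact Finset.sum_le_sum fun a _ => Finset.single_le_sum
      (f := fun b => Rc R a b * Rc R a b) (fun b _ => mul_self_nonneg _) (Finset.mem_univ a)
  have h2 : sc R ^ 2 ≤ 6 * ∑ a, Rc R a a * Rc R a a := by
    have h := sq_sum_le_card_mul_sum_sq (s := (Finset.univ : Finset (Fin 6)))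
      (f := fun a => Rc R a a)
    simp only [Finset.card_univ, Fintype.card_fin] at h
    have e : ∑ a, Rc R a a * Rc R a a = ∑ a, Rc R a a ^ 2 :=
      Finset.sum_congr rfl fun a _ => (pow_two _).symm
    rw [e]
    unfold sc
    push_cast at h
    exact h
  linarith

end Pool.Agent.Run7.h82.P6
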