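import Pool.Agent.Run7.h82.P6.Dual2

/-!
# Invariants of `1 - T` and the two global inequalities
-/

set_option autoImplicit false

open scoped BigOperators

namespace Pool.Agent.Run7.h82.P6

open Hopf6 Pool.Agent.TH570.Hopf

variable {T : Ten}

/-- the tensor `1 - T` -/
noncomputable def CT (T : Ten) : Ten := fun a b c d => 1 * UT a b c d + (-1) * T a b c d

theorem CT_curv (hT : IsCurv T) : IsCurv (CT T) := comb_curv UT_curv hT 1 (-1)

theorem UT_de (a b c d : Fin 6) : UT a b c d = de a c * de b d - de a d * de b c := by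
  unfold UT de
  rfl

theorem Rc_CT (a b : Fin 6) : Rc (CT T) a b = 5 * de a b - Rc T a b := by
  unfold CT
  rw [Rc_comb, Rc_UT]
  unfold de
  split_ifs <;> ring

theorem sc_CT : sc (CT T) = 30 - sc T := by
  unfold CT
  rw [sc_comb, sc_UT]
  ring

theorem nR_CT : nR (CT T) = 150 - 10 * sc T + nR T := by
  unfold nR
  simp only [Rc_CT]
  have e : ∀ a b, (5 * de a b - Rc T a b) * (5 * de a b - Rc T a b) =
      (25 * de a b - 10 * Rc T a b) * de a b + Rc T a b * Rc T a b := by
    intro a b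
    ring
  simp only [e, Finset.sum_add_distrib]
  simp only [sum_de (fun b => 25 * de _ b - 10 * Rc T _ b)]
  rw [Finset.sum_sub_distrib, ← Finset.mul_sum, ← Finset.mul_sum, sum_dd]
  unfold sc
  ring

theorem UT_con (hT : IsCurv T) (a b : Fin 6) :
    ∑ c, ∑ d, ∑ e, UT a c d e * T b c d e = 2 * Rc T a b := by
  have t1 : ∑ c, ∑ d, ∑ e, (de a d * de c e) * T b c d e = Rc T a b := by
    have e1 : ∀ c d, ∑ e, (de a d * de c e) * T b c d e = T b c d c * de a d := by
      intro c d
      rw [← sum_de (fun e => T b c d e * de a d) c]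
      exact Finset.sum_congr rfl fun e _ => by ring
    simp only [e1]
    rw [← Rc_symm6 hT]
    unfold Rc
    refine Finset.sum_congr rfl fun c _ => ?_
    exact sum_de (fun d => T b c d c) a
  have t2 : ∑ c, ∑ d, ∑ e, (de a e * de c d) * T b c d e = - Rc T a b := by
    have e1 : ∀ c d, ∑ e, (de a e * de c d) * T b c d e = T b c d a * de c d := by
      intro c d
      rw [← sum_de (fun e => T b c d e * de c d) a]
      exact Finset.sum_congr rfl fun e _ => by ring
    simp only [e1]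
    rw [← Rc_symm6 hT]
    unfold Rc
    rw [← Finset.sum_neg_distrib]
    refine Finset.sum_congr rfl fun c _ => ?_
    rw [sum_de (fun d => T b c d a) c, anti34 hT b c a c]
  have e : ∀ c d e, UT a c d e * T b c d e = (de a d * de c e) * T b c d e -
      (de a e * de c d) * T b c d e := by
    intro c d e
    rw [UT_de]
    ring
  simp only [e, Finset.sum_sub_distrib]
  rw [t1, t2]
  ring

theorem SS_UT (a b : Fin 6) : SS UT a b = 10 * de a b := by
  have h := UT_con UT_curv a b
  have e : Rc UT a b = 5 * de a b := by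
    rw [Rc_UT]
    unfold de
    split_ifs <;> ring
  rw [e] at h
  unfold SS
  rw [h]
  ring

theorem SS_CT (hT : IsCurv T) (a b : Fin 6) :
    SS (CT T) a b = 10 * de a b - 4 * Rc T a b + SS T a b := by
  have e : ∀ c d e, CT T a c d e * CT T b c d e = UT a c d e * UT b c d e -
      UT a c d e * T b c d e - UT b c d e * T a c d e + T a c d e * T b c d e := by
    intro c d e
    unfold CT
    ring
  have h1 : ∑ c, ∑ d, ∑ e, UT a c d e * UT b c d e = 10 * de a b := SS_UT a b
  have h2 := UT_con hT a b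
  have h3 := UT_con hT b a
  unfold SS
  simp only [e, Finset.sum_sub_distrib, Finset.sum_add_distrib]
  rw [h1, h2, h3, Rc_symm6 hT a b]
  ring

theorem nS_CT (hT : IsCurv T) : nS (CT T) = 60 - 4 * sc T + nS T := by
  have e1 : ∀ A : Ten, nS A = ∑ a, SS A a a := fun _ => rfl
  rw [e1, e1]
  simp only [SS_CT hT, Finset.sum_add_distrib, Finset.sum_sub_distrib, ← Finset.mul_sum, sum_dd]
  unfold sc
  ring

/-- `∑ (5 δ - r)_{ab} k_{ab}` -/
theorem ip_CT (k : Fin 6 → Fin 6 → ℝ) : ip (Rc (CT T)) k = 5 * trf k - ip (Rc T) k := by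
  have e : Rc (CT T) = fun a b => (-1) * Rc T a b + 5 * de a b := by
    funext a b
    rw [Rc_CT]
    ring
  rw [e, ip_de]
  ring

theorem I6_CT (hT : IsCurv T) : I6 (CT T) = 300 - 30 * sc T + 4 * nR T + 5 * nS T - I6 T := by
  have h0 : I6 (CT T) = ip (Rc (CT T)) (SS (CT T)) := rfl
  have h1 : SS (CT T) = fun a b => 10 * de a b - 4 * Rc T a b + SS T a b := by
    funext a b
    exact SS_CT hT a b
  have h2 : trf (SS (CT T)) = 60 - 4 * sc T + nS T := nS_CT hT
  have h3 : ip (Rc T) (SS (CT T)) = 10 * sc T - 4 * nR T + I6 T := by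
    rw [h1]
    unfold ip
    have e : ∀ a b, Rc T a b * (10 * de a b - 4 * Rc T a b + SS T a b) =
        (10 * Rc T a b) * de a b - 4 * (Rc T a b * Rc T a b) + Rc T a b * SS T a b := by
      intro a b
      ring
    simp only [e, Finset.sum_add_distrib, Finset.sum_sub_distrib, ← Finset.mul_sum]
    simp only [sum_de (fun b => 10 * Rc T _ b), ← Finset.mul_sum]
    rfl
  rw [h0, ip_CT, h2, h3]
  ring

theorem ip_symm2 (h k : Fin 6 → Fin 6 → ℝ) : ip h k = ip k h := by
  unfold ip
  exact Finset.sum_congr rfl fun a _ => Finset.sum_congr rfl fun b _ => mul_comm _ _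

theorem I4_ip (hT : IsCurv T) : I4 T = ip (Rc T) (Rc2 T) := by
  unfold ip Rc2 I4
  refine Finset.sum_congr rfl fun a _ => Finset.sum_congr rfl fun b _ => ?_
  rw [Finset.mul_sum]
  refine Finset.sum_congr rfl fun c _ => ?_
  rw [Rc_symm6 hT b c, Rc_symm6 hT c a]
  ring

theorem I5_ip : I5 T = ip (Rc T) (TRc T) := by
  unfold ip TRc I5
  refine Finset.sum_congr rfl fun a _ => Finset.sum_congr rfl fun b _ => ?_
  rw [Finset.mul_sum]
  refine Finset.sum_congr rfl fun c _ => ?_
  rw [Finset.mul_sum]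
  exact Finset.sum_congr rfl fun d _ => by ring

theorem trf_Rc2 (hT : IsCurv T) : trf (Rc2 T) = nR T := by
  unfold trf Rc2 nR
  exact Finset.sum_congr rfl fun a _ => Finset.sum_congr rfl fun b _ => by
    rw [Rc_symm6 hT a b]

theorem Rc2_CT (a b : Fin 6) : Rc2 (CT T) a b = 25 * de a b - 10 * Rc T a b + Rc2 T a b := by
  unfold Rc2
  simp only [Rc_CT]
  have e : ∀ c, (5 * de a c - Rc T a c) * (5 * de c b - Rc T c b) =
      (25 * de c b - 5 * Rc T c b) * de a c - (5 * Rc T a c) * de c b + Rc T a c * Rc T c b := by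
    intro c
    ring
  simp only [e, Finset.sum_add_distrib, Finset.sum_sub_distrib]
  rw [sum_de (fun c => 25 * de c b - 5 * Rc T c b) a, sum_de' (fun c => 5 * Rc T a c) b]
  ring

theorem I4_CT (hT : IsCurv T) : I4 (CT T) = 750 - 75 * sc T + 15 * nR T - I4 T := by
  rw [I4_ip (CT_curv hT), ip_CT, trf_Rc2 (CT_curv hT), nR_CT]
  have h1 : Rc2 (CT T) = fun a b => 25 * de a b - 10 * Rc T a b + Rc2 T a b := by
    funext a b
    exact Rc2_CT a b
  have h3 : ip (Rc T) (Rc2 (CT T)) = 25 * sc T - 10 * nR T + I4 T := by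
    rw [I4_ip hT, h1]
    unfold ip
    have e : ∀ a b, Rc T a b * (25 * de a b - 10 * Rc T a b + Rc2 T a b) =
        (25 * Rc T a b) * de a b - 10 * (Rc T a b * Rc T a b) + Rc T a b * Rc2 T a b := by
      intro a b
      ring
    simp only [e, Finset.sum_add_distrib, Finset.sum_sub_distrib, ← Finset.mul_sum]
    simp only [sum_de (fun b => 25 * Rc T _ b), ← Finset.mul_sum]
    rfl
  rw [h3]
  ring

theorem TRc_CT (hT : IsCurv T) (a b : Fin 6) : TRc (CT T) a b =
    (30 - sc T) * de a b - 5 * de a b + Rc T a b - 5 * Rc T a b + TRc T a b := by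
  have hR : ∀ c d, Rc (CT T) c d = 5 * de c d - Rc T c d := fun c d => Rc_CT c d
  have e : ∀ c d, CT T a c b d * Rc (CT T) c d =
      (de a b * Rc (CT T) c d) * de c d - (Rc (CT T) c d * de c b) * de a d
      - (5 * T a c b d) * de c d + T a c b d * Rc T c d := by
    intro c d
    unfold CT
    rw [UT_de, show Rc (fun a b c d => 1 * UT a b c d + (-1) * T a b c d) c d = Rc (CT T) c d from rfl,
      hR]
    ring
  unfold TRc
  simp only [e, Finset.sum_add_distrib, Finset.sum_sub_distrib]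
  simp only [sum_de (fun d => de a b * Rc (CT T) _ d), sum_de (fun d => Rc (CT T) _ d * de _ b),
    sum_de (fun d => 5 * T a _ b d), ← Finset.mul_sum]
  rw [sum_de' (fun c => Rc (CT T) c a) b, hR]
  have h1 : ∑ i, Rc (CT T) i i = 30 - sc T := sc_CT
  have h2 : ∑ i, T a i b i = Rc T a b := rfl
  rw [h1, h2, de_comm b a, Rc_symm6 hT a b]
  ring

theorem I5_CT (hT : IsCurv T) : I5 (CT T) = (30 - sc T) ^ 2 - (150 - 10 * sc T + nR T)
    - 25 * sc T + 10 * nR T - I5 T := by
  have h1 : TRc (CT T) = fun a b => (25 - sc T) * de a b - 4 * Rc T a b + TRc T a b := by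
    funext a b
    rw [TRc_CT hT]
    ring
  have h3 : ip (Rc T) (TRc (CT T)) = (25 - sc T) * sc T - 4 * nR T + I5 T := by
    rw [I5_ip, h1]
    unfold ip
    have e : ∀ a b, Rc T a b * ((25 - sc T) * de a b - 4 * Rc T a b + TRc T a b) =
        ((25 - sc T) * Rc T a b) * de a b - 4 * (Rc T a b * Rc T a b) + Rc T a b * TRc T a b := by
      intro a b
      ring
    simp only [e, Finset.sum_add_distrib, Finset.sum_sub_distrib, ← Finset.mul_sum]
    simp only [sum_de (fun b => (25 - sc T) * Rc T _ b), ← Finset.mul_sum]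
    rfl
  rw [I5_ip, ip_CT, trf_TRc (CT_curv hT), nR_CT, h3]
  ring

/-- the Gauss-Bonnet-Chern sum of `1 - T` -/
theorem gb_CT (hT : IsCurv T) :
    gb (CT T) = 5760 - 576 * sc T + 6 * sc (ET T) - gb T := by
  unfold CT
  rw [gb_unit_comb hT]
  ring

/-- the cubic combination of `⟨Ric, Ric (ET)⟩` -/
def cc (T : Ten) : ℝ :=
  4 * sc T ^ 3 - 32 * (sc T * nR T) + 4 * (sc T * nS T) + 32 * I4 T + 32 * I5 T - 16 * I6 T

/-- **The first global inequality.** -/
theorem F1_nonneg (hT : IsCurv T) (h0 : ∀ x y, 0 ≤ quad T x y) : 0 ≤ cc T + 3 / 2 * gb T := by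
  have h := bil_nonneg hT hT h0 h0
  rwa [dotR_ET hT, ← gb_dot4] at h

/-- **The second global inequality.** -/
theorem G1_nonneg (hT : IsCurv T) (h0 : ∀ x y, 0 ≤ quad T x y)
    (h1 : ∀ x y, quad T x y ≤ area2 x y) : 0 ≤ cc T + 3 / 2 * gb T +
      (768 * sc T - 96 * sc T ^ 2 + 288 * nR T - 48 * nS T) := by
  have hU := CT_curv hT
  have hU0 : ∀ x y, 0 ≤ quad (CT T) x y := by
    intro x y
    unfold CT
    rw [quad_comb, quad_UT]
    linarith [h1 x y]
  have h := bil_nonneg hT hU h0 hU0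
  have hTU : T = fun a b c d => 1 * UT a b c d + (-1) * CT T a b c d := by
    funext a b c d
    unfold CT
    ring
  have hd : ∀ E : Ten, dotR T E = 5 * sc E - dotR (CT T) E := by
    intro E
    have h2 := dotR_comb UT (CT T) E 1 (-1)
    rw [← hTU, dotR_UT] at h2
    linarith
  have hd4 : dot4 T (ET (CT T)) = 2 * sc (ET (CT T)) - gb (CT T) := by
    have h2 := dot4_comb UT (CT T) (ET (CT T)) 1 (-1)
    rw [← hTU, dot4_UT (ET_anti _) (ET_pair hU.pair), ← gb_dot4] at h2
    linarith
  rw [hd, hd4, sc_ET hU, dotR_ET hU, gb_CT hT, sc_ET hT, sc_CT, nR_CT, nS_CT hT, I4_CT hT,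
    I5_CT hT, I6_CT hT] at h
  unfold cc
  nlinarith

end Pool.Agent.Run7.h82.P6
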