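import Pool.Agent.Run7.h82.P6.Aver
import Pool.Agent.Run7.h82.P6.Inv

/-!
# The certificates

For a curvature tensor with sectional curvatures between `0` and `1` the sum
`gb R + (48 / 5) (s² - 4 |Ric|² + |R|²) + (552 / 25) s` is nonnegative.
-/

set_option autoImplicit false

open scoped BigOperators

namespace Pool.Agent.Run7.h82.P6

open Hopf6 Hopf6.B2 Pool.Agent.TH570.Hopf

variable {R : Ten} {ι : Type} [Fintype ι]

theorem q2_nonneg (hR : IsCurv R) (h0 : ∀ x y, 0 ≤ quad R x y) :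
    0 ≤ sc R ^ 2 - 4 * nR R + nS R := by
  have h := sc_ET_nonneg hR h0
  rw [sc_ET hR] at h
  linarith

/-- averages of `tr J (1 - J)` -/
theorem avJB (D : Design ι) (hR : IsCurv R) (h0 : ∀ x y, 0 ≤ quad R x y)
    (h1 : ∀ x y, quad R x y ≤ area2 x y) :
    0 ≤ 1 / 6 * sc R - 1 / 48 * nR R - 1 / 32 * nS R := by
  have e0 := avA1 D hR h0 1 0 0 (-1) 0
  have e1 := avA2 D hR h1 0 0 0 1 0
  unfold AV at e0 e1
  linear_combination e0 + e1

theorem sc_nonneg (D : Design ι) (hR : IsCurv R) (h0 : ∀ x y, 0 ≤ quad R x y) : 0 ≤ sc R := by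
  have e0 := avA1 D hR h0 1 0 0 0 0
  unfold AV at e0
  linear_combination 6 * e0

theorem sc_le (D : Design ι) (hR : IsCurv R) (h1 : ∀ x y, quad R x y ≤ area2 x y) :
    sc R ≤ 30 := by
  have e0 := avA2 D hR h1 1 0 0 0 0
  unfold AV at e0
  linear_combination 6 * e0

set_option maxHeartbeats 1000000 in
theorem cert1 (D : Design ι) (hR : IsCurv R) (h0 : ∀ x y, 0 ≤ quad R x y)
    (h1 : ∀ x y, quad R x y ≤ area2 x y) (hs0 : 0 ≤ sc R) (hs1 : sc R ≤ 12) :
    0 ≤ gb R + 48 / 5 * (sc R ^ 2 - 4 * nR R + nS R) + 552 / 25 * sc R := by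
  have hg := gb_eq hR
  have hq := q2_nonneg hR h0
  have e0 := avM1 D hR h0 (7 / 6) (11 / 24) (-1)
  have e1 := mul_nonneg (sub_nonneg.2 hs1) (avJB D hR h0 h1)
  have e2 := mul_nonneg (sub_nonneg.2 hs1) (hq)
  have e3 : 0 ≤ sc R := hs0
  have e4 := avA2 D hR h1 0 (1 / 15) (-5 / 24) (-1 / 2) (-5 / 24)
  have e5 := avA2 D hR h1 0 (1 / 15) (-5 / 24) (-2 / 3) (-5 / 24)
  have e6 := avM1 D hR h0 (4 / 3) (1 / 3) (-1)
  have e7 := avM1 D hR h0 (7 / 6) (1 / 3) (-5 / 6)
  have e8 := avA1 D hR h0 (-1 / 6) (1 / 120) (-1 / 3) (4 / 3) (-5 / 24)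
  have e9 := F1_nonneg hR h0
  have e10 := avA1 D hR h0 0 0 (-7 / 24) (7 / 6) (-5 / 24)
  have e11 := avA1 D hR h0 (-1 / 6) (1 / 120) (-7 / 24) (4 / 3) (-5 / 24)
  unfold cc at e9
  rw [hg] at e9 ⊢
  unfold AV at e0 e4 e5 e6 e7 e8 e10 e11
  linear_combination (29096604078495940608 / 26906570973849956095) * e0 +
    (942871030324321344 / 109822738668775331) * e1 +
    (12340469457874164664 / 11531387560221409755) * e2 +
    (738866460111862398856 / 172970813403321146325) * e3 +
    (3107341290246306816 / 768759170681427317) * e4 +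
    (102883983396365890560 / 768759170681427317) * e5 +
    (63904028884505722624 / 3843795853407136585) * e6 +
    (43568273898308966400 / 5381314194769991219) * e7 +
    (93303510755885051904 / 768759170681427317) * e8 +
    (9660477081767063413 / 15375183413628546340) * e9 +
    (475709124748074494976 / 3843795853407136585) * e10 +
    (12570429383496975360 / 768759170681427317) * e11

set_option maxHeartbeats 1000000 in
theorem cert2 (D : Design ι) (hR : IsCurv R) (h0 : ∀ x y, 0 ≤ quad R x y)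
    (h1 : ∀ x y, quad R x y ≤ area2 x y) (hs0 : 12 ≤ sc R) (hs1 : sc R ≤ 15) :
    0 ≤ gb R + 48 / 5 * (sc R ^ 2 - 4 * nR R + nS R) + 552 / 25 * sc R := by
  have hg := gb_eq hR
  have hq := q2_nonneg hR h0
  have e0 := mul_nonneg (sub_nonneg.2 hs0) (mul_nonneg (sub_nonneg.2 hs0) (sub_nonneg.2 hs1))
  have e1 := mul_nonneg (sub_nonneg.2 hs0) (R0_nonneg R)
  have e2 := mul_nonneg (sub_nonneg.2 hs0) (sub_nonneg.2 hs1)
  have e3 := avA2 D hR h1 (-1 / 3) (1 / 15) (-1 / 24) (-1 / 2) (-5 / 24)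
  have e4 := avM2 D hR h1 (7 / 6) (-1 / 6) (4 / 3)
  have e5 := avA2 D hR h1 (-1 / 3) (1 / 15) (-1 / 12) (-1 / 2) (-1 / 6)
  have e6 := avM2 D hR h1 (7 / 6) (-5 / 24) (4 / 3)
  have e7 : (0 : ℝ) ≤ 1 := zero_le_one
  have e8 := mul_nonneg (sub_nonneg.2 hs0) (avJB D hR h0 h1)
  have e9 := avA1 D hR h0 (-5 / 6) (-1 / 120) (-1 / 24) (4 / 3) (-1 / 8)
  have e10 := avA1 D hR h0 (-5 / 6) (-1 / 120) (-1 / 12) (4 / 3) (-1 / 12)
  have e11 := G1_nonneg hR h0 h1
  have e12 := F1_nonneg hR h0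
  unfold cc at e11 e12
  rw [hg] at e11 e12 ⊢
  unfold AV at e3 e4 e5 e6 e9 e10
  linear_combination (11054034011293144216 / 47308917063392757675) * e0 +
    (12841339785859628768 / 3153927804226183845) * e1 +
    (71882445916741599928 / 15769639021130919225) * e2 +
    (13525657730246768640 / 70087284538359641) * e3 +
    (988671102613389312 / 70087284538359641) * e4 +
    (26135541327734181888 / 70087284538359641) * e5 +
    (472127082533179392 / 70087284538359641) * e6 +
    (212246615569574624 / 150187038296484945) * e7 +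
    (871970728079089664 / 150187038296484945) * e8 +
    (1794585195741462528 / 70087284538359641) * e9 +
    (9223990550662044672 / 70087284538359641) * e10 +
    (149415252626679199 / 3153927804226183845) * e11 +
    (1639359923434026911 / 3153927804226183845) * e12

set_option maxHeartbeats 1000000 in
theorem cert3 (D : Design ι) (hR : IsCurv R) (h0 : ∀ x y, 0 ≤ quad R x y)
    (h1 : ∀ x y, quad R x y ≤ area2 x y) (hs0 : 15 ≤ sc R) (hs1 : sc R ≤ 30) :
    0 ≤ gb R + 48 / 5 * (sc R ^ 2 - 4 * nR R + nS R) + 552 / 25 * sc R := by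
  have hg := gb_eq hR
  have hq := q2_nonneg hR h0
  have e0 := avA2 D hR h1 (-1 / 3) (-1 / 60) (1 / 24) (4 / 3) (5 / 24)
  have e1 := mul_nonneg (sub_nonneg.2 hs0) (R0_nonneg R)
  have e2 := G1_nonneg hR h0 h1
  have e3 := avA2 D hR h1 (-1 / 3) (-1 / 60) (1 / 12) (4 / 3) (1 / 6)
  have e4 := avM2 D hR h1 (-1) (1 / 3) (-7 / 6)
  have e5 := F1_nonneg hR h0
  have e6 := mul_nonneg (sub_nonneg.2 hs0) (sub_nonneg.2 hs1)
  have e7 := avD1 D hR h0
  have e8 := avM2 D hR h1 (-1) (7 / 24) (-7 / 6)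
  have e9 := avA1 D hR h0 (-1) (1 / 24) (-1 / 6) (4 / 3) (-1 / 6)
  have e10 := mul_nonneg (sub_nonneg.2 hs0) (avJB D hR h0 h1)
  have e11 : (0 : ℝ) ≤ 1 := zero_le_one
  have e12 := mul_nonneg (sub_nonneg.2 hs0) (avW D hR)
  unfold cc at e2 e5
  rw [hg] at e2 e5 ⊢
  unfold AV at e0 e3 e4 e7 e8 e9 e12
  linear_combination (13762712845565503488 / 183153020172793775) * e0 +
    (1161090575152199607 / 183153020172793775) * e1 +
    (66583779543213407 / 732612080691175100) * e2 +
    (11317607857298479104 / 183153020172793775) * e3 +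
    (4513094677036459008 / 183153020172793775) * e4 +
    (933032596403218549 / 2197836242073525300) * e5 +
    (336648490682085032 / 915765100863968875) * e6 +
    (1192801904676885248 / 183153020172793775) * e7 +
    (2196933666125451264 / 183153020172793775) * e8 +
    (42375073563356009472 / 183153020172793775) * e9 +
    (25124670975727584288 / 915765100863968875) * e10 +
    (3272970531959310288 / 36630604034558755) * e11 +
    (14940211730985527612 / 4578825504319844375) * e12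

/-- **The inequality.** -/
theorem main_ineq (hR : IsCurv R) (h0 : ∀ x y, 0 ≤ quad R x y)
    (h1 : ∀ x y, quad R x y ≤ area2 x y) :
    0 ≤ gb R + 48 / 5 * (sc R ^ 2 - 4 * nR R + nS R) + 552 / 25 * sc R := by
  obtain ⟨ι, _, ⟨D⟩⟩ := exists_design
  have hs0 := sc_nonneg D hR h0
  have hs1 := sc_le D hR h1
  rcases le_total (sc R) 12 with h | h
  · exact cert1 D hR h0 h1 hs0 h
  · rcases le_total (sc R) 15 with h' | h'
    · exact cert2 D hR h0 h1 h h'
    · exact cert3 D hR h0 h1 h' hs1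

end Pool.Agent.Run7.h82.P6
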