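import Pool.Agent.TH570.Hopf.Unit

/-!
# The contractions of the dual tensor in terms of the invariants

The first variation of the formula `gb_eq` for the Gauss-Bonnet-Chern integrand in the direction of
the product of a symmetric form with the metric.
-/

set_option autoImplicit false

open scoped BigOperators

namespace Pool.Agent.Run7.h82.P6

open Hopf6 Pool.Agent.TH570.Hopf

/-- Kronecker delta -/
def de (a b : Fin 6) : ℝ := if a = b then 1 else 0

/-- the product of a symmetric form with the metric -/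
def KNd (h : Fin 6 → Fin 6 → ℝ) : Ten := fun a b c d =>
  h a c * de b d + h b d * de a c - h a d * de b c - h b c * de a d

theorem de_comm (a b : Fin 6) : de a b = de b a := by
  unfold de
  simp only [eq_comm]

theorem sum_de (f : Fin 6 → ℝ) (a : Fin 6) : ∑ b, f b * de a b = f a := by
  simp [de]

theorem sum_de' (f : Fin 6 → ℝ) (a : Fin 6) : ∑ b, f b * de b a = f a := by
  simp [de]

theorem sum_dd : ∑ a : Fin 6, de a a = 6 := by
  simp [de]

variable {h : Fin 6 → Fin 6 → ℝ}

theorem KNd_curv (hs : ∀ a b, h b a = h a b) : IsCurv (KNd h) := by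
  refine ⟨fun a b c d => ?_, fun a b c d => ?_, fun a b c d => ?_⟩
  · unfold KNd
    ring
  · unfold KNd
    rw [hs a c, hs b d, hs b c, hs a d, de_comm d b, de_comm c a, de_comm d a, de_comm c b]
    ring
  · unfold KNd
    rw [de_comm b a, de_comm c a, de_comm c b, hs a b, hs a c, hs b c]
    ring

/-- trace -/
def trf (h : Fin 6 → Fin 6 → ℝ) : ℝ := ∑ a, h a a

theorem Rc_KNd (h : Fin 6 → Fin 6 → ℝ) (a b : Fin 6) : Rc (KNd h) a b = 4 * h a b + trf h * de a b := by
  unfold Rc KNd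
  simp only [Finset.sum_sub_distrib, Finset.sum_add_distrib]
  have e1 : ∑ c, h a b * de c c = 6 * h a b := by
    rw [← Finset.mul_sum, sum_dd]
    ring
  have e2 : ∑ c, h c c * de a b = trf h * de a b := by
    rw [← Finset.sum_mul]
    rfl
  have e3 : ∑ c, h a c * de c b = h a b := sum_de' (fun c => h a c) b
  have e4 : ∑ c, h c b * de a c = h a b := sum_de (fun c => h c b) a
  rw [e1, e2, e3, e4]
  ring

theorem sc_KNd (h : Fin 6 → Fin 6 → ℝ) : sc (KNd h) = 10 * trf h := by
  unfold sc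
  simp only [Rc_KNd, Finset.sum_add_distrib, ← Finset.mul_sum, sum_dd]
  unfold trf
  ring

/-- `⟨KNd h, E⟩ = 4 ⟨h, Ric E⟩` -/
theorem dot4_KNd {E : Ten} (ha : ∀ a b c d, E b a c d = - E a b c d)
    (hp : ∀ a b c d, E c d a b = E a b c d) (h : Fin 6 → Fin 6 → ℝ) :
    dot4 (KNd h) E = 4 * ∑ a, ∑ b, h a b * Rc E a b := by
  have ha' : ∀ a b c d, E a b d c = - E a b c d := by
    intro a b c d
    rw [← hp a b d c, ha c d a b, hp]
  have t1 : ∑ a, ∑ b, ∑ c, ∑ d, h a c * de b d * E a b c d = ∑ a, ∑ c, h a c * Rc E a c := by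
    refine Finset.sum_congr rfl fun a _ => ?_
    rw [Finset.sum_comm]
    refine Finset.sum_congr rfl fun c _ => ?_
    unfold Rc
    rw [Finset.mul_sum]
    refine Finset.sum_congr rfl fun b _ => ?_
    rw [← sum_de (fun d => h a c * E a b c d) b]
    exact Finset.sum_congr rfl fun d _ => by ring
  have t2 : ∑ a, ∑ b, ∑ c, ∑ d, h b d * de a c * E a b c d = ∑ b, ∑ d, h b d * Rc E b d := by
    rw [Finset.sum_comm]
    refine Finset.sum_congr rfl fun b _ => ?_
    have e : ∀ a, ∑ c, ∑ d, h b d * de a c * E a b c d = ∑ d, h b d * E a b a d := by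
      intro a
      rw [Finset.sum_comm]
      refine Finset.sum_congr rfl fun d _ => ?_
      rw [← sum_de (fun c => h b d * E a b c d) a]
      exact Finset.sum_congr rfl fun c _ => by ring
    simp only [e]
    rw [Finset.sum_comm]
    refine Finset.sum_congr rfl fun d _ => ?_
    rw [← Finset.mul_sum, Rc_alt ha hp]
  have t3 : ∑ a, ∑ b, ∑ c, ∑ d, h a d * de b c * E a b c d = - ∑ a, ∑ d, h a d * Rc E a d := by
    rw [← Finset.sum_neg_distrib]
    refine Finset.sum_congr rfl fun a _ => ?_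
    have e : ∀ b, ∑ c, ∑ d, h a d * de b c * E a b c d = ∑ d, h a d * E a b b d := by
      intro b
      rw [Finset.sum_comm]
      refine Finset.sum_congr rfl fun d _ => ?_
      rw [← sum_de (fun c => h a d * E a b c d) b]
      exact Finset.sum_congr rfl fun c _ => by ring
    simp only [e]
    rw [Finset.sum_comm, ← Finset.sum_neg_distrib]
    refine Finset.sum_congr rfl fun d _ => ?_
    unfold Rc
    rw [← Finset.mul_sum, ← mul_neg, ← Finset.sum_neg_distrib]
    congr 1
    exact Finset.sum_congr rfl fun b _ => ha' a b d b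
  have t4 : ∑ a, ∑ b, ∑ c, ∑ d, h b c * de a d * E a b c d = - ∑ b, ∑ c, h b c * Rc E b c := by
    rw [Finset.sum_comm, ← Finset.sum_neg_distrib]
    refine Finset.sum_congr rfl fun b _ => ?_
    have e : ∀ a, ∑ c, ∑ d, h b c * de a d * E a b c d = ∑ c, h b c * E a b c a := by
      intro a
      refine Finset.sum_congr rfl fun c _ => ?_
      rw [← sum_de (fun d => h b c * E a b c d) a]
      exact Finset.sum_congr rfl fun d _ => by ring
    simp only [e]
    rw [Finset.sum_comm, ← Finset.sum_neg_distrib]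
    refine Finset.sum_congr rfl fun c _ => ?_
    rw [← Finset.mul_sum, ← Rc_alt ha hp b c, ← mul_neg, ← Finset.sum_neg_distrib]
    congr 1
    exact Finset.sum_congr rfl fun a _ => ha' a b a c
  unfold dot4 KNd
  simp only [sub_mul, add_mul, Finset.sum_sub_distrib, Finset.sum_add_distrib]
  rw [t1, t2, t3, t4]
  ring

theorem rot6 (F : Fin 6 → Fin 6 → Fin 6 → Fin 6 → Fin 6 → Fin 6 → ℝ) :
    ∑ a, ∑ b, ∑ c, ∑ d, ∑ e, ∑ f, F a b c d e f = ∑ a, ∑ b, ∑ c, ∑ d, ∑ e, ∑ f, F e f a b c d := by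
  have key : ∀ G : (Fin 6 × Fin 6) → (Fin 6 × Fin 6) → (Fin 6 × Fin 6) → ℝ,
      ∑ p, ∑ q, ∑ r, G p q r = ∑ p, ∑ q, ∑ r, G r p q := by
    intro G
    rw [Finset.sum_comm]
    refine Finset.sum_congr rfl fun p _ => ?_
    rw [Finset.sum_comm]
  have h := key fun p q r => F p.1 p.2 q.1 q.2 r.1 r.2
  simpa only [Fintype.sum_prod_type] using h

/-- coefficient extraction -/
theorem coef1 {l0 l1 l2 l3 r0 r1 r2 r3 : ℝ} (h : ∀ t : ℝ,
    l0 + t * l1 + t ^ 2 * l2 + t ^ 3 * l3 = r0 + t * r1 + t ^ 2 * r2 + t ^ 3 * r3) : l1 = r1 := by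
  have h0 := h 0
  have h1 := h 1
  have h2 := h (-1)
  have h3 := h 2
  linarith

section var
variable (T A : Ten) (t : ℝ)

theorem Rc_var (a b : Fin 6) : Rc (fun a b c d => 1 * T a b c d + t * A a b c d) a b =
    Rc T a b + t * Rc A a b := by
  rw [Rc_comb]
  ring

theorem sc_var : sc (fun a b c d => 1 * T a b c d + t * A a b c d) = sc T + t * sc A := by
  rw [sc_comb]
  ring

theorem nR_var : nR (fun a b c d => 1 * T a b c d + t * A a b c d) =
    nR T + t * (2 * ∑ a, ∑ b, Rc T a b * Rc A a b) + t ^ 2 * nR A := by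
  have e : ∀ a b, (Rc T a b + t * Rc A a b) * (Rc T a b + t * Rc A a b) =
      Rc T a b * Rc T a b + t * (2 * (Rc T a b * Rc A a b)) + t ^ 2 * (Rc A a b * Rc A a b) := by
    intro a b
    ring
  unfold nR
  simp only [Rc_var, e, Finset.sum_add_distrib, ← Finset.mul_sum]

theorem nS_var : nS (fun a b c d => 1 * T a b c d + t * A a b c d) =
    nS T + t * (2 * dot4 T A) + t ^ 2 * nS A := by
  have e : ∀ a b c d, (1 * T a b c d + t * A a b c d) * (1 * T a b c d + t * A a b c d) =
      T a b c d * T a b c d + t * (2 * (T a b c d * A a b c d)) +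
        t ^ 2 * (A a b c d * A a b c d) := by
    intro a b c d
    ring
  unfold nS dot4
  simp only [e, Finset.sum_add_distrib, ← Finset.mul_sum]

theorem I4_var : ∃ b c : ℝ, ∀ t : ℝ, I4 (fun a b c d => 1 * T a b c d + t * A a b c d) =
    I4 T + t * (3 * ∑ a, ∑ b, ∑ c, Rc A a b * Rc T b c * Rc T c a) + t ^ 2 * b + t ^ 3 * c := by
  refine ⟨∑ a, ∑ b, ∑ c, (Rc A a b * Rc A b c * Rc T c a + Rc A a b * Rc T b c * Rc A c a +
    Rc T a b * Rc A b c * Rc A c a), ∑ a, ∑ b, ∑ c, Rc A a b * Rc A b c * Rc A c a, fun t => ?_⟩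
  have e : ∀ a b c, (Rc T a b + t * Rc A a b) * (Rc T b c + t * Rc A b c) *
      (Rc T c a + t * Rc A c a) = Rc T a b * Rc T b c * Rc T c a +
      t * (Rc A a b * Rc T b c * Rc T c a + Rc T a b * Rc A b c * Rc T c a +
        Rc T a b * Rc T b c * Rc A c a) +
      t ^ 2 * (Rc A a b * Rc A b c * Rc T c a + Rc A a b * Rc T b c * Rc A c a +
        Rc T a b * Rc A b c * Rc A c a) + t ^ 3 * (Rc A a b * Rc A b c * Rc A c a) := by
    intro a b c
    ring
  have r1 : ∑ a, ∑ b, ∑ c, Rc T a b * Rc A b c * Rc T c a =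
      ∑ a, ∑ b, ∑ c, Rc A a b * Rc T b c * Rc T c a := by
    rw [Finset.sum_comm]
    refine Finset.sum_congr rfl fun a _ => ?_
    rw [Finset.sum_comm]
    exact Finset.sum_congr rfl fun b _ => Finset.sum_congr rfl fun c _ => by ring
  have r2 : ∑ a, ∑ b, ∑ c, Rc T a b * Rc T b c * Rc A c a =
      ∑ a, ∑ b, ∑ c, Rc A a b * Rc T b c * Rc T c a := by
    have : ∀ a, ∑ b, ∑ c, Rc T a b * Rc T b c * Rc A c a =
        ∑ c, ∑ b, Rc T a b * Rc T b c * Rc A c a := fun a => Finset.sum_comm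
    simp only [this]
    rw [Finset.sum_comm]
    refine Finset.sum_congr rfl fun a _ => Finset.sum_congr rfl fun b _ =>
      Finset.sum_congr rfl fun c _ => by ring
  unfold I4
  simp only [Rc_var, e, Finset.sum_add_distrib, ← Finset.mul_sum]
  rw [r1, r2]
  ring

theorem I5_var : ∃ b c : ℝ, ∀ t : ℝ, I5 (fun a b c d => 1 * T a b c d + t * A a b c d) =
    I5 T + t * ((∑ a, ∑ b, ∑ c, ∑ d, Rc A a b * T a c b d * Rc T c d) +
      (∑ a, ∑ b, ∑ c, ∑ d, Rc T a b * A a c b d * Rc T c d) +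
      (∑ a, ∑ b, ∑ c, ∑ d, Rc T a b * T a c b d * Rc A c d)) + t ^ 2 * b + t ^ 3 * c := by
  refine ⟨∑ a, ∑ b, ∑ c, ∑ d, (Rc A a b * A a c b d * Rc T c d + Rc A a b * T a c b d * Rc A c d +
    Rc T a b * A a c b d * Rc A c d), ∑ a, ∑ b, ∑ c, ∑ d, Rc A a b * A a c b d * Rc A c d,
    fun t => ?_⟩
  have e : ∀ a b c d, (Rc T a b + t * Rc A a b) * (1 * T a c b d + t * A a c b d) *
      (Rc T c d + t * Rc A c d) = Rc T a b * T a c b d * Rc T c d +
      t * (Rc A a b * T a c b d * Rc T c d + Rc T a b * A a c b d * Rc T c d +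
        Rc T a b * T a c b d * Rc A c d) +
      t ^ 2 * (Rc A a b * A a c b d * Rc T c d + Rc A a b * T a c b d * Rc A c d +
        Rc T a b * A a c b d * Rc A c d) + t ^ 3 * (Rc A a b * A a c b d * Rc A c d) := by
    intro a b c d
    ring
  unfold I5
  simp only [Rc_var, e, Finset.sum_add_distrib, ← Finset.mul_sum]

/-- mixed version of `SS` -/
def SM (T A : Ten) (a b : Fin 6) : ℝ := ∑ c, ∑ d, ∑ e, T a c d e * A b c d e

theorem SS_var (a b : Fin 6) : SS (fun a b c d => 1 * T a b c d + t * A a b c d) a b =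
    SS T a b + t * (SM T A a b + SM T A b a) + t ^ 2 * SS A a b := by
  have e : ∀ c d e, (1 * T a c d e + t * A a c d e) * (1 * T b c d e + t * A b c d e) =
      T a c d e * T b c d e + t * (T a c d e * A b c d e + T b c d e * A a c d e) +
        t ^ 2 * (A a c d e * A b c d e) := by
    intro c d e
    ring
  unfold SS SM
  simp only [e, Finset.sum_add_distrib, ← Finset.mul_sum]

theorem I6_var (hT : ∀ a b, Rc T b a = Rc T a b) :
    ∃ b c : ℝ, ∀ t : ℝ, I6 (fun a b c d => 1 * T a b c d + t * A a b c d) =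
    I6 T + t * ((∑ a, ∑ b, Rc A a b * SS T a b) + 2 * ∑ a, ∑ b, Rc T a b * SM T A a b) +
      t ^ 2 * b + t ^ 3 * c := by
  refine ⟨∑ a, ∑ b, (Rc T a b * SS A a b + Rc A a b * (SM T A a b + SM T A b a)),
    ∑ a, ∑ b, Rc A a b * SS A a b, fun t => ?_⟩
  have e : ∀ a b, (Rc T a b + t * Rc A a b) *
      (SS T a b + t * (SM T A a b + SM T A b a) + t ^ 2 * SS A a b) =
      Rc T a b * SS T a b + t * (Rc A a b * SS T a b + Rc T a b * SM T A a b +
        Rc T a b * SM T A b a) +
      t ^ 2 * (Rc T a b * SS A a b + Rc A a b * (SM T A a b + SM T A b a)) +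
      t ^ 3 * (Rc A a b * SS A a b) := by
    intro a b
    ring
  have r1 : ∑ a, ∑ b, Rc T a b * SM T A b a = ∑ a, ∑ b, Rc T a b * SM T A a b := by
    rw [Finset.sum_comm]
    exact Finset.sum_congr rfl fun a _ => Finset.sum_congr rfl fun b _ => by rw [hT]
  unfold I6
  simp only [Rc_var, SS_var, e, Finset.sum_add_distrib, ← Finset.mul_sum]
  rw [r1]
  ring

theorem I7_var : ∃ b c : ℝ, ∀ t : ℝ, I7 (fun a b c d => 1 * T a b c d + t * A a b c d) =
    I7 T + t * (3 * ∑ a, ∑ b, ∑ c, ∑ d, ∑ e, ∑ f, A a b c d * T c d e f * T e f a b) +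
      t ^ 2 * b + t ^ 3 * c := by
  refine ⟨∑ a, ∑ b, ∑ c, ∑ d, ∑ e, ∑ f, (A a b c d * A c d e f * T e f a b +
    A a b c d * T c d e f * A e f a b + T a b c d * A c d e f * A e f a b),
    ∑ a, ∑ b, ∑ c, ∑ d, ∑ e, ∑ f, A a b c d * A c d e f * A e f a b, fun t => ?_⟩
  have e : ∀ a b c d e f, (1 * T a b c d + t * A a b c d) * (1 * T c d e f + t * A c d e f) *
      (1 * T e f a b + t * A e f a b) = T a b c d * T c d e f * T e f a b +
      t * (A a b c d * T c d e f * T e f a b + T a b c d * A c d e f * T e f a b +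
        T a b c d * T c d e f * A e f a b) +
      t ^ 2 * (A a b c d * A c d e f * T e f a b + A a b c d * T c d e f * A e f a b +
        T a b c d * A c d e f * A e f a b) + t ^ 3 * (A a b c d * A c d e f * A e f a b) := by
    intro a b c d e f
    ring
  have r1 : ∑ a, ∑ b, ∑ c, ∑ d, ∑ e, ∑ f, T a b c d * A c d e f * T e f a b =
      ∑ a, ∑ b, ∑ c, ∑ d, ∑ e, ∑ f, A a b c d * T c d e f * T e f a b := by
    rw [rot6 fun a b c d e f => T a b c d * A c d e f * T e f a b]
    exact Finset.sum_congr rfl fun a _ => Finset.sum_congr rfl fun b _ =>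
      Finset.sum_congr rfl fun c _ => Finset.sum_congr rfl fun d _ =>
      Finset.sum_congr rfl fun e _ => Finset.sum_congr rfl fun f _ => by ring
  have r2 : ∑ a, ∑ b, ∑ c, ∑ d, ∑ e, ∑ f, T a b c d * T c d e f * A e f a b =
      ∑ a, ∑ b, ∑ c, ∑ d, ∑ e, ∑ f, A a b c d * T c d e f * T e f a b := by
    rw [rot6 fun a b c d e f => A a b c d * T c d e f * T e f a b]
    exact Finset.sum_congr rfl fun a _ => Finset.sum_congr rfl fun b _ =>
      Finset.sum_congr rfl fun c _ => Finset.sum_congr rfl fun d _ =>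
      Finset.sum_congr rfl fun e _ => Finset.sum_congr rfl fun f _ => by ring
  unfold I7
  simp only [e, Finset.sum_add_distrib, ← Finset.mul_sum]
  rw [r1, r2]
  ring

theorem I8_var : ∃ b c : ℝ, ∀ t : ℝ, I8 (fun a b c d => 1 * T a b c d + t * A a b c d) =
    I8 T + t * (3 * ∑ a, ∑ b, ∑ c, ∑ d, ∑ e, ∑ f, A a c b d * T c e d f * T e a f b) +
      t ^ 2 * b + t ^ 3 * c := by
  refine ⟨∑ a, ∑ b, ∑ c, ∑ d, ∑ e, ∑ f, (A a c b d * A c e d f * T e a f b +
    A a c b d * T c e d f * A e a f b + T a c b d * A c e d f * A e a f b),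
    ∑ a, ∑ b, ∑ c, ∑ d, ∑ e, ∑ f, A a c b d * A c e d f * A e a f b, fun t => ?_⟩
  have e : ∀ a b c d e f, (1 * T a c b d + t * A a c b d) * (1 * T c e d f + t * A c e d f) *
      (1 * T e a f b + t * A e a f b) = T a c b d * T c e d f * T e a f b +
      t * (A a c b d * T c e d f * T e a f b + T a c b d * A c e d f * T e a f b +
        T a c b d * T c e d f * A e a f b) +
      t ^ 2 * (A a c b d * A c e d f * T e a f b + A a c b d * T c e d f * A e a f b +
        T a c b d * A c e d f * A e a f b) + t ^ 3 * (A a c b d * A c e d f * A e a f b) := by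
    intro a b c d e f
    ring
  have r1 : ∑ a, ∑ b, ∑ c, ∑ d, ∑ e, ∑ f, T a c b d * A c e d f * T e a f b =
      ∑ a, ∑ b, ∑ c, ∑ d, ∑ e, ∑ f, A a c b d * T c e d f * T e a f b := by
    rw [rot6 fun a b c d e f => T a c b d * A c e d f * T e a f b]
    exact Finset.sum_congr rfl fun a _ => Finset.sum_congr rfl fun b _ =>
      Finset.sum_congr rfl fun c _ => Finset.sum_congr rfl fun d _ =>
      Finset.sum_congr rfl fun e _ => Finset.sum_congr rfl fun f _ => by ring
  have r2 : ∑ a, ∑ b, ∑ c, ∑ d, ∑ e, ∑ f, T a c b d * T c e d f * A e a f b =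
      ∑ a, ∑ b, ∑ c, ∑ d, ∑ e, ∑ f, A a c b d * T c e d f * T e a f b := by
    rw [rot6 fun a b c d e f => A a c b d * T c e d f * T e a f b]
    exact Finset.sum_congr rfl fun a _ => Finset.sum_congr rfl fun b _ =>
      Finset.sum_congr rfl fun c _ => Finset.sum_congr rfl fun d _ =>
      Finset.sum_congr rfl fun e _ => Finset.sum_congr rfl fun f _ => by ring
  unfold I8
  simp only [e, Finset.sum_add_distrib, ← Finset.mul_sum]
  rw [r1, r2]
  ring

end var

end Pool.Agent.Run7.h82.P6
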