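import Pool.Agent.Run7.h82.P6.Dual

/-!
# The contractions of the dual tensor in terms of the invariants, continued
-/

set_option autoImplicit false

open scoped BigOperators

namespace Pool.Agent.Run7.h82.P6

open Hopf6 Pool.Agent.TH570.Hopf

/-- `∑ T_{acbd} Ric_{cd}` -/
def TRc (T : Ten) (a b : Fin 6) : ℝ := ∑ c, ∑ d, T a c b d * Rc T c d

/-- `⟨h, k⟩` -/
def ip (h k : Fin 6 → Fin 6 → ℝ) : ℝ := ∑ a, ∑ b, h a b * k a b

/-- `Ric²` -/
def Rc2 (T : Ten) (a b : Fin 6) : ℝ := ∑ c, Rc T a c * Rc T c b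

variable {h : Fin 6 → Fin 6 → ℝ} {T : Ten}

theorem anti34 (hT : IsCurv T) (a b c d : Fin 6) : T a b d c = - T a b c d := by
  rw [← hT.pair a b d c, hT.anti c d a b, hT.pair]

theorem swap2 (hT : IsCurv T) (a b c d : Fin 6) : T b a d c = T a b c d := by
  rw [hT.anti a b d c, anti34 hT a b c d]
  ring

theorem Rc_symm6 (hT : IsCurv T) (a b : Fin 6) : Rc T b a = Rc T a b := Rc_symm' hT.pair a b

theorem ip_de (h : Fin 6 → Fin 6 → ℝ) (k : Fin 6 → Fin 6 → ℝ) (x y : ℝ) :
    ip (fun a b => x * h a b + y * de a b) k = x * ip h k + y * trf k := by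
  have e : ∀ a b, (x * h a b + y * de a b) * k a b = x * (h a b * k a b) +
      y * (k a b * de a b) := by
    intro a b
    ring
  unfold ip trf
  simp only [e, Finset.sum_add_distrib, ← Finset.mul_sum, sum_de]

theorem v2 : ∑ a, ∑ b, Rc T a b * Rc (KNd h) a b = 4 * ip h (Rc T) + trf h * sc T := by
  have e : ∑ a, ∑ b, Rc T a b * Rc (KNd h) a b = ip (fun a b => 4 * h a b + trf h * de a b) (Rc T) := by
    unfold ip
    exact Finset.sum_congr rfl fun a _ => Finset.sum_congr rfl fun b _ => by rw [Rc_KNd]; ring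
  rw [e, ip_de]
  rfl

theorem dot4_comm (A B : Ten) : dot4 A B = dot4 B A := by
  unfold dot4
  exact Finset.sum_congr rfl fun a _ => Finset.sum_congr rfl fun b _ =>
    Finset.sum_congr rfl fun c _ => Finset.sum_congr rfl fun d _ => mul_comm _ _

theorem v3 (hT : IsCurv T) : dot4 T (KNd h) = 4 * ip h (Rc T) := by
  rw [dot4_comm, dot4_KNd hT.anti hT.pair]
  rfl

theorem v4 (hT : IsCurv T) : ∑ a, ∑ b, ∑ c, Rc (KNd h) a b * Rc T b c * Rc T c a =
    4 * ip h (Rc2 T) + trf h * nR T := by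
  have e : ∑ a, ∑ b, ∑ c, Rc (KNd h) a b * Rc T b c * Rc T c a =
      ip (fun a b => 4 * h a b + trf h * de a b) (Rc2 T) := by
    unfold ip Rc2
    refine Finset.sum_congr rfl fun a _ => Finset.sum_congr rfl fun b _ => ?_
    rw [Finset.mul_sum]
    refine Finset.sum_congr rfl fun c _ => ?_
    rw [Rc_KNd, Rc_symm6 hT c b, Rc_symm6 hT a c]
    ring
  rw [e, ip_de]
  have e2 : trf (Rc2 T) = nR T := by
    unfold trf Rc2 nR
    exact Finset.sum_congr rfl fun a _ => Finset.sum_congr rfl fun b _ => by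
      rw [Rc_symm6 hT a b]
  rw [e2]

theorem trf_TRc (hT : IsCurv T) : trf (TRc T) = nR T := by
  unfold trf TRc nR
  have e : ∀ a : Fin 6, ∑ c, ∑ d, T a c a d * Rc T c d = ∑ c, ∑ d, T a c a d * Rc T c d := fun _ => rfl
  rw [Finset.sum_comm]
  refine Finset.sum_congr rfl fun c _ => ?_
  rw [Finset.sum_comm]
  refine Finset.sum_congr rfl fun d _ => ?_
  rw [← Finset.sum_mul, Pool.Agent.TH570.Hopf.Rc_alt hT.anti hT.pair]

theorem v5a (hT : IsCurv T) : ∑ a, ∑ b, ∑ c, ∑ d, Rc (KNd h) a b * T a c b d * Rc T c d =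
    4 * ip h (TRc T) + trf h * nR T := by
  have e : ∑ a, ∑ b, ∑ c, ∑ d, Rc (KNd h) a b * T a c b d * Rc T c d =
      ip (fun a b => 4 * h a b + trf h * de a b) (TRc T) := by
    unfold ip TRc
    refine Finset.sum_congr rfl fun a _ => Finset.sum_congr rfl fun b _ => ?_
    rw [Finset.mul_sum]
    refine Finset.sum_congr rfl fun c _ => ?_
    rw [Finset.mul_sum]
    refine Finset.sum_congr rfl fun d _ => ?_
    rw [Rc_KNd]
    ring
  rw [e, ip_de, trf_TRc hT]

theorem rot4 (F : Fin 6 → Fin 6 → Fin 6 → Fin 6 → ℝ) :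
    ∑ a, ∑ b, ∑ c, ∑ d, F a b c d = ∑ a, ∑ b, ∑ c, ∑ d, F c d a b := by
  have key : ∀ G : (Fin 6 × Fin 6) → (Fin 6 × Fin 6) → ℝ,
      ∑ p, ∑ q, G p q = ∑ p, ∑ q, G q p := fun G => Finset.sum_comm
  have h := key fun p q => F p.1 p.2 q.1 q.2
  simpa only [Fintype.sum_prod_type] using h

theorem v5c (hT : IsCurv T) : ∑ a, ∑ b, ∑ c, ∑ d, Rc T a b * T a c b d * Rc (KNd h) c d =
    4 * ip h (TRc T) + trf h * nR T := by
  rw [← v5a hT, rot4]
  refine Finset.sum_congr rfl fun a _ => Finset.sum_congr rfl fun b _ =>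
    Finset.sum_congr rfl fun c _ => Finset.sum_congr rfl fun d _ => ?_
  rw [swap2 hT a c b d]
  ring

theorem v5b (hs : ∀ a b, h b a = h a b) (hT : IsCurv T) :
    ∑ a, ∑ b, ∑ c, ∑ d, Rc T a b * KNd h a c b d * Rc T c d =
      2 * (sc T * ip h (Rc T)) - 2 * ip h (Rc2 T) := by
  have t1 : ∑ a, ∑ b, ∑ c, ∑ d, Rc T a b * (h a b * de c d) * Rc T c d = sc T * ip h (Rc T) := by
    have e : ∀ a b, ∑ c, ∑ d, Rc T a b * (h a b * de c d) * Rc T c d =
        sc T * (h a b * Rc T a b) := by
      intro a b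
      have e1 : ∀ c, ∑ d, Rc T a b * (h a b * de c d) * Rc T c d =
          h a b * Rc T a b * Rc T c c := by
        intro c
        rw [← sum_de (fun d => h a b * Rc T a b * Rc T c d) c]
        exact Finset.sum_congr rfl fun d _ => by ring
      simp only [e1, ← Finset.mul_sum]
      unfold sc
      ring
    simp only [e, ← Finset.mul_sum]
    rfl
  have t2 : ∑ a, ∑ b, ∑ c, ∑ d, Rc T a b * (h c d * de a b) * Rc T c d = sc T * ip h (Rc T) := by
    rw [← t1, rot4]
    exact Finset.sum_congr rfl fun a _ => Finset.sum_congr rfl fun b _ =>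
      Finset.sum_congr rfl fun c _ => Finset.sum_congr rfl fun d _ => by ring
  have t3 : ∑ a, ∑ b, ∑ c, ∑ d, Rc T a b * (h a d * de c b) * Rc T c d = ip h (Rc2 T) := by
    unfold ip Rc2
    refine Finset.sum_congr rfl fun a _ => ?_
    have e1 : ∀ b, ∑ c, ∑ d, Rc T a b * (h a d * de c b) * Rc T c d =
        ∑ d, h a d * (Rc T a b * Rc T b d) := by
      intro b
      rw [Finset.sum_comm]
      refine Finset.sum_congr rfl fun d _ => ?_
      rw [← sum_de' (fun c => h a d * (Rc T a b * Rc T c d)) b]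
      exact Finset.sum_congr rfl fun c _ => by ring
    simp only [e1]
    rw [Finset.sum_comm]
    exact Finset.sum_congr rfl fun d _ => by rw [Finset.mul_sum]
  have t4 : ∑ a, ∑ b, ∑ c, ∑ d, Rc T a b * (h c b * de a d) * Rc T c d = ip h (Rc2 T) := by
    have e1 : ∀ a b c, ∑ d, Rc T a b * (h c b * de a d) * Rc T c d =
        h c b * (Rc T c a * Rc T a b) := by
      intro a b c
      rw [← sum_de (fun d => h c b * (Rc T c d * Rc T a b)) a]
      exact Finset.sum_congr rfl fun d _ => by ring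
    simp only [e1]
    unfold ip Rc2
    have e2 : ∀ a, ∑ b, ∑ c, h c b * (Rc T c a * Rc T a b) =
        ∑ c, ∑ b, h c b * (Rc T c a * Rc T a b) := fun a => Finset.sum_comm
    simp only [e2]
    rw [Finset.sum_comm]
    refine Finset.sum_congr rfl fun c _ => ?_
    rw [Finset.sum_comm]
    exact Finset.sum_congr rfl fun b _ => by rw [Finset.mul_sum]
  have e : ∀ a b c d, Rc T a b * KNd h a c b d * Rc T c d =
      Rc T a b * (h a b * de c d) * Rc T c d + Rc T a b * (h c d * de a b) * Rc T c d -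
      Rc T a b * (h a d * de c b) * Rc T c d - Rc T a b * (h c b * de a d) * Rc T c d := by
    intro a b c d
    unfold KNd
    ring
  simp only [e, Finset.sum_sub_distrib, Finset.sum_add_distrib]
  rw [t1, t2, t3, t4]
  ring

theorem v6a : ∑ a, ∑ b, Rc (KNd h) a b * SS T a b = 4 * ip h (SS T) + trf h * nS T := by
  have e : ∑ a, ∑ b, Rc (KNd h) a b * SS T a b =
      ip (fun a b => 4 * h a b + trf h * de a b) (SS T) := by
    unfold ip
    exact Finset.sum_congr rfl fun a _ => Finset.sum_congr rfl fun b _ => by rw [Rc_KNd]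
  rw [e, ip_de]
  rfl

theorem SM_KNd (hT : IsCurv T) (a b : Fin 6) : SM T (KNd h) a b =
    2 * (∑ d, Rc T a d * h b d) + 2 * ∑ c, ∑ e, T a c b e * h c e := by
  have t1 : ∑ c, ∑ d, ∑ e, T a c d e * (h b d * de c e) = ∑ d, Rc T a d * h b d := by
    have e1 : ∀ c d, ∑ e, T a c d e * (h b d * de c e) = T a c d c * h b d := by
      intro c d
      rw [← sum_de (fun e => T a c d e * h b d) c]
      exact Finset.sum_congr rfl fun e _ => by ring
    simp only [e1]
    rw [Finset.sum_comm]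
    refine Finset.sum_congr rfl fun d _ => ?_
    rw [← Finset.sum_mul]
    rfl
  have t2 : ∑ c, ∑ d, ∑ e, T a c d e * (h c e * de b d) = ∑ c, ∑ e, T a c b e * h c e := by
    refine Finset.sum_congr rfl fun c _ => ?_
    rw [Finset.sum_comm]
    refine Finset.sum_congr rfl fun e _ => ?_
    rw [← sum_de (fun d => T a c d e * h c e) b]
    exact Finset.sum_congr rfl fun d _ => by ring
  have t3 : ∑ c, ∑ d, ∑ e, T a c d e * (h b e * de c d) = - ∑ d, Rc T a d * h b d := by
    have e1 : ∀ c, ∑ d, ∑ e, T a c d e * (h b e * de c d) = ∑ e, T a c c e * h b e := by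
      intro c
      rw [Finset.sum_comm]
      refine Finset.sum_congr rfl fun e _ => ?_
      rw [← sum_de (fun d => T a c d e * h b e) c]
      exact Finset.sum_congr rfl fun d _ => by ring
    simp only [e1]
    rw [Finset.sum_comm, ← Finset.sum_neg_distrib]
    refine Finset.sum_congr rfl fun d _ => ?_
    rw [← Finset.sum_mul, ← neg_mul]
    congr 1
    unfold Rc
    rw [← Finset.sum_neg_distrib]
    exact Finset.sum_congr rfl fun c _ => anti34 hT a c d c
  have t4 : ∑ c, ∑ d, ∑ e, T a c d e * (h c d * de b e) = - ∑ c, ∑ e, T a c b e * h c e := by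
    rw [← Finset.sum_neg_distrib]
    refine Finset.sum_congr rfl fun c _ => ?_
    rw [← Finset.sum_neg_distrib]
    refine Finset.sum_congr rfl fun d _ => ?_
    have e1 : ∑ e, T a c d e * (h c d * de b e) = T a c d b * h c d := by
      rw [← sum_de (fun e => T a c d e * h c d) b]
      exact Finset.sum_congr rfl fun e _ => by ring
    rw [e1, anti34 hT a c b d]
    ring
  have e : ∀ c d e, T a c d e * KNd h b c d e = T a c d e * (h b d * de c e) +
      T a c d e * (h c e * de b d) - T a c d e * (h b e * de c d) -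
      T a c d e * (h c d * de b e) := by
    intro c d e
    unfold KNd
    ring
  unfold SM
  simp only [e, Finset.sum_sub_distrib, Finset.sum_add_distrib]
  rw [t1, t2, t3, t4]
  ring

theorem v6b (hs : ∀ a b, h b a = h a b) (hT : IsCurv T) :
    ∑ a, ∑ b, Rc T a b * SM T (KNd h) a b = 2 * ip h (Rc2 T) + 2 * ip h (TRc T) := by
  have e : ∀ a b, Rc T a b * SM T (KNd h) a b =
      2 * (∑ d, Rc T a b * (Rc T a d * h b d)) +
        2 * ∑ c, ∑ e, Rc T a b * (T a c b e * h c e) := by
    intro a b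
    rw [SM_KNd hT]
    simp only [← Finset.mul_sum]
    ring
  have t1 : ∑ a, ∑ b, ∑ d, Rc T a b * (Rc T a d * h b d) = ip h (Rc2 T) := by
    unfold ip Rc2
    rw [Finset.sum_comm]
    refine Finset.sum_congr rfl fun b _ => ?_
    rw [Finset.sum_comm]
    refine Finset.sum_congr rfl fun d _ => ?_
    rw [Finset.mul_sum]
    refine Finset.sum_congr rfl fun a _ => ?_
    rw [Rc_symm6 hT a b]
    ring
  have t2 : ∑ a, ∑ b, ∑ c, ∑ e, Rc T a b * (T a c b e * h c e) = ip h (TRc T) := by
    rw [rot4]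
    unfold ip TRc
    refine Finset.sum_congr rfl fun a _ => Finset.sum_congr rfl fun b _ => ?_
    rw [Finset.mul_sum]
    refine Finset.sum_congr rfl fun c _ => ?_
    rw [Finset.mul_sum]
    refine Finset.sum_congr rfl fun d _ => ?_
    rw [swap2 hT a c b d]
    ring
  simp only [e, Finset.sum_add_distrib, ← Finset.mul_sum]
  rw [← t1, ← t2]
  simp only [← Finset.mul_sum]

theorem v7 (hT : IsCurv T) : ∑ a, ∑ b, ∑ c, ∑ d, ∑ e, ∑ f, KNd h a b c d * T c d e f * T e f a b =
    4 * ip h (SS T) := by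
  set E : Ten := fun a b c d => ∑ e, ∑ f, T c d e f * T e f a b with hE
  have ha : ∀ a b c d, E b a c d = - E a b c d := by
    intro a b c d
    simp only [hE, ← Finset.sum_neg_distrib]
    refine Finset.sum_congr rfl fun e _ => Finset.sum_congr rfl fun f _ => ?_
    rw [anti34 hT e f a b]
    ring
  have hp : ∀ a b c d, E c d a b = E a b c d := by
    intro a b c d
    simp only [hE]
    refine Finset.sum_congr rfl fun e _ => Finset.sum_congr rfl fun f _ => ?_
    rw [hT.pair e f a b, ← hT.pair e f c d]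
    ring
  have h1 := dot4_KNd ha hp h
  have h2 : dot4 (KNd h) E =
      ∑ a, ∑ b, ∑ c, ∑ d, ∑ e, ∑ f, KNd h a b c d * T c d e f * T e f a b := by
    unfold dot4
    refine Finset.sum_congr rfl fun a _ => Finset.sum_congr rfl fun b _ =>
      Finset.sum_congr rfl fun c _ => Finset.sum_congr rfl fun d _ => ?_
    simp only [hE, Finset.mul_sum, mul_assoc]
  rw [← h2, h1]
  congr 1
  unfold ip
  refine Finset.sum_congr rfl fun a _ => Finset.sum_congr rfl fun c _ => ?_
  congr 1
  unfold Rc SS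
  simp only [hE]
  refine Finset.sum_congr rfl fun b _ => Finset.sum_congr rfl fun e _ =>
    Finset.sum_congr rfl fun f _ => ?_
  rw [hT.pair a b e f]
  ring

/-- the half of `SS` from the Bianchi identity -/
theorem halfSS (hT : IsCurv T) (a d : Fin 6) :
    ∑ c, ∑ e, ∑ f, T c e d f * T e a f c = 1 / 2 * SS T a d := by
  have e1 : ∀ c e f, T c e d f * T e a f c = T d f c e * T a e c f := by
    intro c e f
    rw [← hT.pair c e d f, swap2 hT a e c f]
  have h1 : ∑ c, ∑ e, ∑ f, T d f c e * T a e c f = - ∑ c, ∑ e, ∑ f, T d f c e * T a c e f := by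
    rw [Finset.sum_comm, ← Finset.sum_neg_distrib]
    refine Finset.sum_congr rfl fun c _ => ?_
    rw [← Finset.sum_neg_distrib]
    refine Finset.sum_congr rfl fun e _ => ?_
    rw [← Finset.sum_neg_distrib]
    refine Finset.sum_congr rfl fun f _ => ?_
    rw [anti34 hT d f c e]
    ring
  have h2 : ∑ c, ∑ e, ∑ f, T d f c e * T a e c f - ∑ c, ∑ e, ∑ f, T d f c e * T a c e f =
      SS T a d := by
    simp only [← Finset.sum_sub_distrib]
    unfold SS
    have r : ∀ c, ∑ e, ∑ f, T a c e f * T d c e f = ∑ e, ∑ f, T a c e f * T d c e f := fun _ => rfl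
    have e3 : ∑ c, ∑ e, ∑ f, (T d f c e * T a e c f - T d f c e * T a c e f) =
        ∑ c, ∑ e, ∑ f, T a f c e * T d f c e := by
      refine Finset.sum_congr rfl fun c _ => Finset.sum_congr rfl fun e _ =>
        Finset.sum_congr rfl fun f _ => ?_
      have b := hT.bianchi c e a f
      have k1 : T c e a f = T a f c e := hT.pair a f c e
      have k2 : T e a c f = - T a e c f := hT.anti a e c f
      have k3 : T a c e f = T a c e f := rfl
      rw [k1, k2] at b
      linear_combination (-(T d f c e)) * b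
    rw [e3]
    have e4 : ∀ c, ∑ e, ∑ f, T a f c e * T d f c e = ∑ f, ∑ e, T a f c e * T d f c e :=
      fun c => Finset.sum_comm
    simp only [e4]
    rw [Finset.sum_comm]
  simp only [e1]
  linarith

theorem SS_symm6 (T : Ten) (a b : Fin 6) : SS T b a = SS T a b := by
  unfold SS
  exact Finset.sum_congr rfl fun c _ => Finset.sum_congr rfl fun d _ =>
    Finset.sum_congr rfl fun e _ => mul_comm _ _

theorem v8 (hT : IsCurv T) : ∑ a, ∑ b, ∑ c, ∑ d, ∑ e, ∑ f, KNd h a c b d * T c e d f * T e a f b =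
    2 * ip h (TRc T) - ip h (SS T) := by
  have hRa : ∀ e f, ∑ c, T c e c f = Rc T e f := fun e f =>
    Pool.Agent.TH570.Hopf.Rc_alt hT.anti hT.pair e f
  -- `N a c b d`
  have e0 : ∀ a b c d, ∑ e, ∑ f, KNd h a c b d * T c e d f * T e a f b =
      KNd h a c b d * ∑ e, ∑ f, T c e d f * T e a f b := by
    intro a b c d
    simp only [Finset.mul_sum, mul_assoc]
  have t1 : ∑ a, ∑ b, ∑ c, ∑ d, (h a b * de c d) * (∑ e, ∑ f, T c e d f * T e a f b) =
      ip h (TRc T) := by
    unfold ip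
    refine Finset.sum_congr rfl fun a _ => Finset.sum_congr rfl fun b _ => ?_
    have e1 : ∀ c, ∑ d, (h a b * de c d) * (∑ e, ∑ f, T c e d f * T e a f b) =
        h a b * ∑ e, ∑ f, T c e c f * T e a f b := by
      intro c
      rw [← sum_de (fun d => h a b * ∑ e, ∑ f, T c e d f * T e a f b) c]
      exact Finset.sum_congr rfl fun d _ => by ring
    simp only [e1, ← Finset.mul_sum]
    congr 1
    rw [Finset.sum_comm]
    unfold TRc
    refine Finset.sum_congr rfl fun e _ => ?_
    rw [Finset.sum_comm]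
    refine Finset.sum_congr rfl fun f _ => ?_
    rw [← Finset.sum_mul, hRa, swap2 hT a e b f]
    ring
  have t2 : ∑ a, ∑ b, ∑ c, ∑ d, (h c d * de a b) * (∑ e, ∑ f, T c e d f * T e a f b) =
      ip h (TRc T) := by
    rw [rot4]
    unfold ip
    refine Finset.sum_congr rfl fun a _ => Finset.sum_congr rfl fun b _ => ?_
    have e1 : ∀ c, ∑ d, (h a b * de c d) * (∑ e, ∑ f, T a e b f * T e c f d) =
        h a b * ∑ e, ∑ f, T a e b f * T e c f c := by
      intro c
      rw [← sum_de (fun d => h a b * ∑ e, ∑ f, T a e b f * T e c f d) c]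
      exact Finset.sum_congr rfl fun d _ => by ring
    simp only [e1, ← Finset.mul_sum]
    congr 1
    rw [Finset.sum_comm]
    unfold TRc
    refine Finset.sum_congr rfl fun e _ => ?_
    rw [Finset.sum_comm]
    refine Finset.sum_congr rfl fun f _ => ?_
    rw [← Finset.mul_sum]
    rfl
  have t3 : ∑ a, ∑ b, ∑ c, ∑ d, (h a d * de c b) * (∑ e, ∑ f, T c e d f * T e a f b) =
      1 / 2 * ip h (SS T) := by
    have e1 : ∀ a b, ∑ c, ∑ d, (h a d * de c b) * (∑ e, ∑ f, T c e d f * T e a f b) =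
        ∑ d, h a d * ∑ e, ∑ f, T b e d f * T e a f b := by
      intro a b
      rw [Finset.sum_comm]
      refine Finset.sum_congr rfl fun d _ => ?_
      rw [← sum_de' (fun c => h a d * ∑ e, ∑ f, T c e d f * T e a f b) b]
      exact Finset.sum_congr rfl fun c _ => by ring
    simp only [e1]
    unfold ip
    rw [Finset.mul_sum]
    refine Finset.sum_congr rfl fun a _ => ?_
    rw [Finset.sum_comm, Finset.mul_sum]
    refine Finset.sum_congr rfl fun d _ => ?_
    rw [← Finset.mul_sum, halfSS hT a d]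
    ring
  have t4 : ∑ a, ∑ b, ∑ c, ∑ d, (h c b * de a d) * (∑ e, ∑ f, T c e d f * T e a f b) =
      1 / 2 * ip h (SS T) := by
    have e1 : ∀ a b c, ∑ d, (h c b * de a d) * (∑ e, ∑ f, T c e d f * T e a f b) =
        h c b * ∑ e, ∑ f, T c e a f * T e a f b := by
      intro a b c
      rw [← sum_de (fun d => h c b * ∑ e, ∑ f, T c e d f * T e a f b) a]
      exact Finset.sum_congr rfl fun d _ => by ring
    simp only [e1]
    have e2 : ∀ a, ∑ b, ∑ c, h c b * ∑ e, ∑ f, T c e a f * T e a f b =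
        ∑ c, ∑ b, h c b * ∑ e, ∑ f, T c e a f * T e a f b := fun a => Finset.sum_comm
    simp only [e2]
    rw [Finset.sum_comm]
    unfold ip
    rw [Finset.mul_sum]
    refine Finset.sum_congr rfl fun c _ => ?_
    rw [Finset.sum_comm, Finset.mul_sum]
    refine Finset.sum_congr rfl fun b _ => ?_
    rw [← Finset.mul_sum]
    have e3 : ∑ a, ∑ e, ∑ f, T c e a f * T e a f b = ∑ a, ∑ e, ∑ f, T a e b f * T e c f a := by
      have e4 : ∀ a e f, T c e a f * T e a f b = T a e b f * T e c f a → True := fun _ _ _ _ => trivial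
      refine Finset.sum_congr rfl fun a _ => Finset.sum_congr rfl fun e _ =>
        Finset.sum_congr rfl fun f _ => ?_
      rw [swap2 hT e a f b |>.symm, swap2 hT c e a f |>.symm]
      ring
    rw [e3, halfSS hT c b]
    ring
  have e : ∀ a b c d, KNd h a c b d * (∑ e, ∑ f, T c e d f * T e a f b) =
      (h a b * de c d) * (∑ e, ∑ f, T c e d f * T e a f b) +
      (h c d * de a b) * (∑ e, ∑ f, T c e d f * T e a f b) -
      (h a d * de c b) * (∑ e, ∑ f, T c e d f * T e a f b) -
      (h c b * de a d) * (∑ e, ∑ f, T c e d f * T e a f b) := by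
    intro a b c d
    unfold KNd
    ring
  simp only [e0, e, Finset.sum_sub_distrib, Finset.sum_add_distrib]
  rw [t1, t2, t3, t4]
  ring

/-- **First variation in the direction of `KNd h`.** -/
theorem G3_KNd (hs : ∀ a b, h b a = h a b) (hT : IsCurv T) :
    G3 (KNd h) T T = 16 * (trf h * (sc T ^ 2 - 4 * nR T + nS T) - 4 * (sc T * ip h (Rc T)) +
      8 * ip h (Rc2 T) + 8 * ip h (TRc T) - 4 * ip h (SS T)) := by
  obtain ⟨b4, c4, h4⟩ := I4_var T (KNd h)
  obtain ⟨b5, c5, h5⟩ := I5_var T (KNd h)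
  obtain ⟨b6, c6, h6⟩ := I6_var T (KNd h) (Rc_symm6 hT)
  obtain ⟨b7, c7, h7⟩ := I7_var T (KNd h)
  obtain ⟨b8, c8, h8⟩ := I8_var T (KNd h)
  rw [v4 hT] at h4
  rw [v5a hT, v5b hs hT, v5c hT] at h5
  rw [v6a, v6b hs hT] at h6
  rw [v7 hT] at h7
  rw [v8 hT] at h8
  have hK := KNd_curv hs
  have hR := nR_var T (KNd h)
  have hS := nS_var T (KNd h)
  rw [v2] at hR
  rw [v3 hT] at hS
  have hsc := sc_var T (KNd h)
  rw [sc_KNd] at hsc
  set s := sc T
  set H := ip h (Rc T)
  set m := trf h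
  set a1 := 2 * (4 * H + m * s) with ha1
  set a2 := 2 * (4 * H) with ha2
  set p := nR (KNd h)
  set q := nS (KNd h)
  have key : ∀ t : ℝ, G3 T T T + t * (3 * G3 (KNd h) T T) + t ^ 2 * (3 * G3 T (KNd h) (KNd h)) +
      t ^ 3 * G3 (KNd h) (KNd h) (KNd h) =
      8 * (s ^ 3 - 12 * (s * nR T) + 3 * (s * nS T) + 16 * I4 T + 24 * I5 T - 24 * I6 T +
        4 * I7 T - 8 * I8 T) +
      t * (8 * (3 * s ^ 2 * (10 * m) - 12 * (10 * m * nR T + s * a1) +
        3 * (10 * m * nS T + s * a2) + 16 * (3 * (4 * ip h (Rc2 T) + m * nR T)) +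
        24 * (4 * ip h (TRc T) + m * nR T + (2 * (s * H) - 2 * ip h (Rc2 T)) +
          (4 * ip h (TRc T) + m * nR T)) -
        24 * (4 * ip h (SS T) + m * nS T + 2 * (2 * ip h (Rc2 T) + 2 * ip h (TRc T))) +
        4 * (3 * (4 * ip h (SS T))) - 8 * (3 * (2 * ip h (TRc T) - ip h (SS T))))) +
      t ^ 2 * (8 * (3 * s * (10 * m) ^ 2 - 12 * (s * p + 10 * m * a1) +
        3 * (s * q + 10 * m * a2) + 16 * b4 + 24 * b5 - 24 * b6 + 4 * b7 - 8 * b8)) +
      t ^ 3 * (8 * ((10 * m) ^ 3 - 12 * (10 * m * p) + 3 * (10 * m * q) + 16 * c4 + 24 * c5 -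
        24 * c6 + 4 * c7 - 8 * c8)) := by
    intro t
    have e1 := gb_comb T (KNd h) 1 t
    rw [gb_eq (comb_curv hT hK 1 t), hR t, hS t, hsc t, h4 t, h5 t, h6 t, h7 t, h8 t] at e1
    linear_combination -e1
  have := coef1 key
  rw [ha1, ha2] at this
  linear_combination (1 / 3) * this

/-- the scalar contraction of the dual tensor -/
theorem sc_ET (hT : IsCurv T) : sc (ET T) = 8 * (sc T ^ 2 - 4 * nR T + nS T) := by
  have h1 := G3_KNd (h := de) (fun a b => de_comm b a) hT
  have h2 := dot4_KNd (ET_anti T) (ET_pair hT.pair) de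
  have h3 : G3 (KNd de) T T = dot4 (KNd de) (ET T) := G3_ET _ _
  have e1 : ∀ k : Fin 6 → Fin 6 → ℝ, ip de k = trf k := by
    intro k
    unfold ip trf
    refine Finset.sum_congr rfl fun a _ => ?_
    rw [← sum_de (fun b => k a b) a]
    exact Finset.sum_congr rfl fun b _ => mul_comm _ _
  have e2 : ∑ a, ∑ b, de a b * Rc (ET T) a b = sc (ET T) := e1 (Rc (ET T))
  have e3 : trf de = 6 := sum_dd
  have e4 : trf (Rc T) = sc T := rfl
  have e5 : trf (Rc2 T) = nR T := by
    unfold trf Rc2 nR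
    exact Finset.sum_congr rfl fun a _ => Finset.sum_congr rfl fun b _ => by
      rw [Rc_symm6 hT a b]
  have e6 : trf (SS T) = nS T := rfl
  rw [e2] at h2
  rw [h3, h2, e1, e1, e1, e1, e3, e4, e5, e6, trf_TRc hT] at h1
  linarith

/-- the Ricci contraction of the dual tensor -/
theorem dotR_ET (hT : IsCurv T) : dotR T (ET T) =
    4 * sc T ^ 3 - 32 * (sc T * nR T) + 4 * (sc T * nS T) + 32 * I4 T + 32 * I5 T - 16 * I6 T := by
  have h1 := G3_KNd (h := Rc T) (Rc_symm6 hT) hT
  have h2 := dot4_KNd (ET_anti T) (ET_pair hT.pair) (Rc T)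
  have h3 : G3 (KNd (Rc T)) T T = dot4 (KNd (Rc T)) (ET T) := G3_ET _ _
  have e0 : ∑ a, ∑ b, Rc T a b * Rc (ET T) a b = dotR T (ET T) := rfl
  have e1 : trf (Rc T) = sc T := rfl
  have e2 : ip (Rc T) (Rc T) = nR T := rfl
  have e3 : ip (Rc T) (Rc2 T) = I4 T := by
    unfold ip Rc2 I4
    refine Finset.sum_congr rfl fun a _ => Finset.sum_congr rfl fun b _ => ?_
    rw [Finset.mul_sum]
    refine Finset.sum_congr rfl fun c _ => ?_
    rw [Rc_symm6 hT b c, Rc_symm6 hT c a]
    ring
  have e4 : ip (Rc T) (TRc T) = I5 T := by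
    unfold ip TRc I5
    refine Finset.sum_congr rfl fun a _ => Finset.sum_congr rfl fun b _ => ?_
    rw [Finset.mul_sum]
    refine Finset.sum_congr rfl fun c _ => ?_
    rw [Finset.mul_sum]
    exact Finset.sum_congr rfl fun d _ => by ring
  have e5 : ip (Rc T) (SS T) = I6 T := rfl
  rw [e0] at h2
  rw [h3, h2, e1, e2, e3, e4, e5] at h1
  linarith

end Pool.Agent.Run7.h82.P6
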