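import Pool.Agent.Run7.h82.P6.Vec

/-!
# An algebraic curvature tensor with curvature between `-15` and `-1` and the wrong sign

`R = -(1 + 14 E)`, where `E` is the curvature tensor with
`E(x, y, x, y) = |x₁ × y₁ + x₂ × y₂|²` for `x = (x₁, x₂)`, `y = (y₁, y₂)` in `ℝ³ ⊕ ℝ³`.
-/

set_option autoImplicit false

open scoped BigOperators

namespace Pool.Agent.Run7.h82.P6

open Hopf6 Pool.Agent.TH570.Hopf

/-! ### the components -/

/-- Levi-Civita symbol -/
def eps3 (i j k : ℕ) : ℤ :=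
  if (i = 0 ∧ j = 1 ∧ k = 2) ∨ (i = 1 ∧ j = 2 ∧ k = 0) ∨ (i = 2 ∧ j = 0 ∧ k = 1) then 1
  else if (i = 0 ∧ j = 2 ∧ k = 1) ∨ (i = 2 ∧ j = 1 ∧ k = 0) ∨ (i = 1 ∧ j = 0 ∧ k = 2) then -1
  else 0

/-- components of the three forms -/
def Az (k : ℕ) (a b : Fin 6) : ℤ :=
  if a.val / 3 = b.val / 3 then eps3 k (a.val % 3) (b.val % 3) else 0

/-- Kronecker delta -/
def dz (a b : Fin 6) : ℤ := if a = b then 1 else 0

/-- three times the components of `1 + 14 E` -/
def Zt (a b c d : Fin 6) : ℤ :=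
  3 * (dz a c * dz b d - dz a d * dz b c) +
  14 * ((2 * (Az 0 a b * Az 0 c d) + Az 0 a c * Az 0 b d - Az 0 a d * Az 0 b c) +
    (2 * (Az 1 a b * Az 1 c d) + Az 1 a c * Az 1 b d - Az 1 a d * Az 1 b c) +
    (2 * (Az 2 a b * Az 2 c d) + Az 2 a c * Az 2 b d - Az 2 a d * Az 2 b c))

/-- sums over `Fin 6` -/
def S6 (f : Fin 6 → ℤ) : ℤ := f 0 + (f 1 + (f 2 + (f 3 + (f 4 + f 5))))

theorem sum_S6 (f : Fin 6 → ℤ) : ∑ a, f a = S6 f := by
  rw [Fin.sum_univ_six]
  unfold S6
  ring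

/-- lazy product -/
def zm (x y : ℤ) : ℤ := if x = 0 then 0 else x * y

theorem zm_eq (x y : ℤ) : x * y = zm x y := by
  unfold zm
  split_ifs with h
  · rw [h, zero_mul]
  · rfl

theorem Zt_anti : ∀ a b c d : Fin 6, Zt b a c d = - Zt a b c d := by decide +kernel
theorem Zt_pair : ∀ a b c d : Fin 6, Zt c d a b = Zt a b c d := by decide +kernel
theorem Zt_bianchi : ∀ a b c d : Fin 6, Zt a b c d + Zt b c a d + Zt c a b d = 0 := by
  decide +kernel

/-- Ricci components -/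
def Zr (a b : Fin 6) : ℤ := ∑ c, Zt a c b c

/-- the real tensor -/
noncomputable def cZ : Ten := fun a b c d => ((Zt a b c d : ℤ) : ℝ)

theorem cZ_curv : IsCurv cZ := by
  refine ⟨fun a b c d => ?_, fun a b c d => ?_, fun a b c d => ?_⟩
  · unfold cZ
    rw [Zt_anti]
    push_cast
    ring
  · unfold cZ
    rw [Zt_pair]
  · unfold cZ
    exact_mod_cast Zt_bianchi a b c d

theorem Zr_eq : ∀ a b : Fin 6, (S6 fun c => Zt a c b c) = if a = b then 99 else 0 := by
  decide +kernel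

theorem Rc_cZ (a b : Fin 6) : Rc cZ a b = if a = b then 99 else 0 := by
  have h : Rc cZ a b = ((∑ c, Zt a c b c : ℤ) : ℝ) := by
    unfold Rc cZ
    push_cast
    rfl
  rw [h, sum_S6, Zr_eq]
  split_ifs <;> norm_num

theorem z_nS : (S6 fun a => S6 fun b => S6 fun c => S6 fun d => zm (Zt a b c d) (Zt a b c d)) =
    77148 := by decide +kernel

theorem z_I7 : (S6 fun a => S6 fun b => S6 fun c => S6 fun d => zm (Zt a b c d)
    (S6 fun e => S6 fun f => zm (Zt c d e f) (Zt e f a b))) = 9757320 := by decide +kernel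

theorem z_I8 : (S6 fun a => S6 fun b => S6 fun c => S6 fun d => zm (Zt a c b d)
    (S6 fun e => S6 fun f => zm (Zt c e d f) (Zt e a f b))) = 2063928 := by decide +kernel

theorem sc_cZ : sc cZ = 594 := by
  unfold sc
  simp only [Rc_cZ]
  norm_num

theorem nR_cZ : nR cZ = 58806 := by
  unfold nR
  simp only [Rc_cZ]
  simp
  norm_num

theorem I4_cZ : I4 cZ = 5821794 := by
  unfold I4
  simp only [Rc_cZ]
  simp
  norm_num

theorem I5_cZ : I5 cZ = 5821794 := by
  have h : I5 cZ = 99 * 99 * sc cZ := by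
    unfold I5 sc
    rw [Finset.mul_sum]
    refine Finset.sum_congr rfl fun a _ => ?_
    simp only [Rc_cZ]
    simp only [ite_mul, mul_ite, mul_zero, zero_mul, Finset.sum_ite_eq, Finset.mem_univ, if_true,
      Finset.sum_const_zero]
    have e : ∀ b : Fin 6, (∑ c, if a = b then 99 * cZ a c b c * 99 else 0) =
        if a = b then 99 * 99 * Rc cZ a b else 0 := by
      intro b
      by_cases hab : a = b
      · simp only [if_pos hab]
        unfold Rc
        rw [Finset.mul_sum]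
        exact Finset.sum_congr rfl fun c _ => by ring
      · simp only [if_neg hab, Finset.sum_const_zero]
    simp only [e, Finset.sum_ite_eq, Finset.mem_univ, if_true, Rc_cZ]
  rw [h, sc_cZ]
  norm_num

theorem nS_cZ : nS cZ = 77148 := by
  have h : nS cZ = ((∑ a, ∑ b, ∑ c, ∑ d, Zt a b c d * Zt a b c d : ℤ) : ℝ) := by
    unfold nS cZ
    push_cast
    rfl
  rw [h]
  simp only [sum_S6, zm_eq, z_nS]
  norm_num

theorem I6_cZ : I6 cZ = 7637652 := by
  have h : I6 cZ = 99 * nS cZ := by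
    have e : nS cZ = ∑ a, SS cZ a a := rfl
    rw [e]
    unfold I6
    simp only [Rc_cZ]
    simp only [ite_mul, zero_mul, Finset.sum_ite_eq, Finset.mem_univ, if_true]
    rw [Finset.mul_sum]
  rw [h, nS_cZ]
  norm_num

theorem I7_cZ : I7 cZ = 9757320 := by
  have h : I7 cZ = ((∑ a, ∑ b, ∑ c, ∑ d, Zt a b c d *
      ∑ e, ∑ f, Zt c d e f * Zt e f a b : ℤ) : ℝ) := by
    unfold I7 cZ
    push_cast
    refine Finset.sum_congr rfl fun a _ => Finset.sum_congr rfl fun b _ =>
      Finset.sum_congr rfl fun c _ => Finset.sum_congr rfl fun d _ => ?_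
    rw [Finset.mul_sum]
    refine Finset.sum_congr rfl fun e _ => ?_
    rw [Finset.mul_sum]
    exact Finset.sum_congr rfl fun f _ => by ring
  rw [h]
  simp only [sum_S6, zm_eq, z_I7]
  norm_num

theorem I8_cZ : I8 cZ = 2063928 := by
  have h : I8 cZ = ((∑ a, ∑ b, ∑ c, ∑ d, Zt a c b d *
      ∑ e, ∑ f, Zt c e d f * Zt e a f b : ℤ) : ℝ) := by
    unfold I8 cZ
    push_cast
    refine Finset.sum_congr rfl fun a _ => Finset.sum_congr rfl fun b _ =>
      Finset.sum_congr rfl fun c _ => Finset.sum_congr rfl fun d _ => ?_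
    rw [Finset.mul_sum]
    refine Finset.sum_congr rfl fun e _ => ?_
    rw [Finset.mul_sum]
    exact Finset.sum_congr rfl fun f _ => by ring
  rw [h]
  simp only [sum_S6, zm_eq, z_I8]
  norm_num

/-- the Gauss-Bonnet-Chern sum of the tensor -/
theorem gb_cZ : gb cZ = -167040 := by
  rw [gb_eq cZ_curv, sc_cZ, nR_cZ, nS_cZ, I4_cZ, I5_cZ, I6_cZ, I7_cZ, I8_cZ]
  norm_num

end Pool.Agent.Run7.h82.P6
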