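import Pool.Agent.Run7.h82.P6.Ex

/-!
# The tensor with the wrong sign on Euclidean six-space
-/

set_option autoImplicit false

open scoped BigOperators

namespace Pool.Agent.Run7.h82.P6

open Hopf6 Pool.Agent.TH570.Hopf

/-- components of `x₁ × y₁ + x₂ × y₂` -/
def A0 (x y : E6) : ℝ := x 1 * y 2 - x 2 * y 1 + (x 4 * y 5 - x 5 * y 4)
/-- components of `x₁ × y₁ + x₂ × y₂` -/
def A1 (x y : E6) : ℝ := x 2 * y 0 - x 0 * y 2 + (x 5 * y 3 - x 3 * y 5)
/-- components of `x₁ × y₁ + x₂ × y₂` -/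
def A2 (x y : E6) : ℝ := x 0 * y 1 - x 1 * y 0 + (x 3 * y 4 - x 4 * y 3)

/-- the curvature tensor of a two-form -/
noncomputable def cu (A : E6 → E6 → ℝ) (x y z w : E6) : ℝ :=
  2 / 3 * (A x y * A z w) + 1 / 3 * (A x z * A y w - A x w * A y z)

/-- the tensor `-c (1 + 14 E)` -/
noncomputable def exR (c : ℝ) (x y z w : E6) : ℝ :=
  -(c * ((inner ℝ x z * inner ℝ y w - inner ℝ x w * inner ℝ y z) +
    14 * (cu A0 x y z w + cu A1 x y z w + cu A2 x y z w)))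

theorem A_add (x x' y : E6) : A0 (x + x') y = A0 x y + A0 x' y ∧
    A1 (x + x') y = A1 x y + A1 x' y ∧ A2 (x + x') y = A2 x y + A2 x' y := by
  unfold A0 A1 A2
  simp only [PiLp.add_apply]
  refine ⟨?_, ?_, ?_⟩ <;> ring

theorem A_smul (t : ℝ) (x y : E6) : A0 (t • x) y = t * A0 x y ∧
    A1 (t • x) y = t * A1 x y ∧ A2 (t • x) y = t * A2 x y := by
  unfold A0 A1 A2
  simp only [PiLp.smul_apply, smul_eq_mul]
  refine ⟨?_, ?_, ?_⟩ <;> ring

theorem A_anti (x y : E6) : A0 y x = - A0 x y ∧ A1 y x = - A1 x y ∧ A2 y x = - A2 x y := by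
  unfold A0 A1 A2
  refine ⟨?_, ?_, ?_⟩ <;> ring

theorem cu_curv {A : E6 → E6 → ℝ} (h : ∀ x y, A y x = - A x y) (x y z w : E6) :
    cu A y x z w = - cu A x y z w ∧ cu A z w x y = cu A x y z w ∧
      cu A x y z w + cu A y z x w + cu A z x y w = 0 := by
  unfold cu
  refine ⟨?_, ?_, ?_⟩
  · rw [h x y]
    ring
  · rw [h x z, h y w, h y z, h x w]
    ring
  · rw [h x z, h y x, h x y, h y z]
    ring

theorem exR_curv (c : ℝ) : AlgCurv (exR c) := by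
  have h0 : ∀ x y, A0 y x = - A0 x y := fun x y => (A_anti x y).1
  have h1 : ∀ x y, A1 y x = - A1 x y := fun x y => (A_anti x y).2.1
  have h2 : ∀ x y, A2 y x = - A2 x y := fun x y => (A_anti x y).2.2
  refine ⟨fun x x' y z w => ?_, fun t x y z w => ?_, fun x y z w => ?_, fun x y z w => ?_,
    fun x y z w => ?_⟩
  · unfold exR cu
    simp only [inner_add_left, (A_add x x' _).1, (A_add x x' _).2.1, (A_add x x' _).2.2]
    ring
  · unfold exR cu
    simp only [inner_smul_left, (A_smul t x _).1, (A_smul t x _).2.1, (A_smul t x _).2.2,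
      conj_trivial]
    ring
  · unfold exR
    rw [(cu_curv h0 x y z w).1, (cu_curv h1 x y z w).1, (cu_curv h2 x y z w).1]
    ring
  · unfold exR
    rw [(cu_curv h0 x y z w).2.1, (cu_curv h1 x y z w).2.1, (cu_curv h2 x y z w).2.1,
      real_inner_comm x z, real_inner_comm y w, real_inner_comm y z, real_inner_comm x w]
    ring
  · have e0 := (cu_curv h0 x y z w).2.2
    have e1 := (cu_curv h1 x y z w).2.2
    have e2 := (cu_curv h2 x y z w).2.2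
    unfold exR
    rw [real_inner_comm y x, real_inner_comm z x, real_inner_comm z y]
    linear_combination (-14 * c) * e0 + (-14 * c) * e1 + (-14 * c) * e2

theorem norm6 (x : E6) : ‖x‖ ^ 2 = x 0 ^ 2 + x 1 ^ 2 + x 2 ^ 2 + x 3 ^ 2 + x 4 ^ 2 + x 5 ^ 2 := by
  rw [EuclideanSpace.norm_sq_eq, Fin.sum_univ_six]
  simp only [Real.norm_eq_abs, sq_abs]

/-- `|x₁ × y₁ + x₂ × y₂|² ≤ |x|² |y|²` -/
theorem A_le (x y : E6) : A0 x y ^ 2 + A1 x y ^ 2 + A2 x y ^ 2 ≤ ‖x‖ ^ 2 * ‖y‖ ^ 2 := by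
  obtain ⟨a, ha⟩ : ∃ a, a = A0 x y := ⟨_, rfl⟩
  obtain ⟨b, hb⟩ : ∃ b, b = A1 x y := ⟨_, rfl⟩
  obtain ⟨c, hc⟩ : ∃ c, c = A2 x y := ⟨_, rfl⟩
  rw [← ha, ← hb, ← hc]
  have h1 := Finset.sum_mul_sq_le_sq_mul_sq (Finset.univ : Finset (Fin 6)) (fun i => y i)
    ![b * x 2 - c * x 1, -a * x 2 + c * x 0, a * x 1 - b * x 0,
      b * x 5 - c * x 4, -a * x 5 + c * x 3, a * x 4 - b * x 3]
  rw [Fin.sum_univ_six, Fin.sum_univ_six, Fin.sum_univ_six] at h1
  simp only [Matrix.cons_val] at h1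
  have h2 : y 0 * (b * x 2 - c * x 1) + y 1 * (-a * x 2 + c * x 0) + y 2 * (a * x 1 - b * x 0) +
      y 3 * (b * x 5 - c * x 4) + y 4 * (-a * x 5 + c * x 3) + y 5 * (a * x 4 - b * x 3) =
      a ^ 2 + b ^ 2 + c ^ 2 := by
    have e : a ^ 2 + b ^ 2 + c ^ 2 = a * A0 x y + b * A1 x y + c * A2 x y := by
      rw [← ha, ← hb, ← hc]
      ring
    rw [e]
    unfold A0 A1 A2
    ring
  rw [h2] at h1
  rw [norm6, norm6]
  set W := a ^ 2 + b ^ 2 + c ^ 2 with hW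
  have hW0 : 0 ≤ W := by positivity
  set Y := y 0 ^ 2 + y 1 ^ 2 + y 2 ^ 2 + y 3 ^ 2 + y 4 ^ 2 + y 5 ^ 2 with hY
  have hY0 : 0 ≤ Y := by positivity
  set X := x 0 ^ 2 + x 1 ^ 2 + x 2 ^ 2 + x 3 ^ 2 + x 4 ^ 2 + x 5 ^ 2 with hX
  have hX0 : 0 ≤ X := by positivity
  have h3 : (b * x 2 - c * x 1) ^ 2 + (-a * x 2 + c * x 0) ^ 2 + (a * x 1 - b * x 0) ^ 2 +
      (b * x 5 - c * x 4) ^ 2 + (-a * x 5 + c * x 3) ^ 2 + (a * x 4 - b * x 3) ^ 2 ≤ W * X := by
    have e : W * X - ((b * x 2 - c * x 1) ^ 2 + (-a * x 2 + c * x 0) ^ 2 +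
        (a * x 1 - b * x 0) ^ 2 + (b * x 5 - c * x 4) ^ 2 + (-a * x 5 + c * x 3) ^ 2 +
        (a * x 4 - b * x 3) ^ 2) =
        (a * x 0 + b * x 1 + c * x 2) ^ 2 + (a * x 3 + b * x 4 + c * x 5) ^ 2 := by
      rw [hW, hX]
      ring
    have : 0 ≤ (a * x 0 + b * x 1 + c * x 2) ^ 2 + (a * x 3 + b * x 4 + c * x 5) ^ 2 := by
      positivity
    linarith
  have h4 : W ^ 2 ≤ Y * (W * X) := h1.trans (mul_le_mul_of_nonneg_left h3 hY0)
  rcases hW0.eq_or_lt with h5 | h5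
  · rw [← h5]
    positivity
  · have h6 : W * W ≤ W * (X * Y) := by
      calc W * W = W ^ 2 := by ring
        _ ≤ Y * (W * X) := h4
        _ = W * (X * Y) := by ring
    exact le_of_mul_le_mul_left h6 h5

theorem exR_sec {c : ℝ} (hc : 0 < c) : Hopf6.SecIn (exR c) (-(15 * c)) (-c) := by
  intro x y hx hy hxy
  have hxx : inner ℝ x x = (1 : ℝ) := by rw [real_inner_self_eq_norm_sq, hx]; norm_num
  have hyy : inner ℝ y y = (1 : ℝ) := by rw [real_inner_self_eq_norm_sq, hy]; norm_num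
  have hyx : inner ℝ y x = (0 : ℝ) := by rw [real_inner_comm]; exact hxy
  have e1 : exR c x y x y = -(c * (1 + 14 * (A0 x y ^ 2 + A1 x y ^ 2 + A2 x y ^ 2))) := by
    have z0 : A0 x x = 0 := by unfold A0; ring
    have z1 : A1 x x = 0 := by unfold A1; ring
    have z2 : A2 x x = 0 := by unfold A2; ring
    unfold exR cu
    rw [hxx, hyy, hxy, hyx, (A_anti x y).1, (A_anti x y).2.1, (A_anti x y).2.2, z0, z1, z2]
    ring
  have h := A_le x y
  rw [hx, hy] at h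
  have h0 : 0 ≤ A0 x y ^ 2 + A1 x y ^ 2 + A2 x y ^ 2 := by positivity
  rw [e1]
  constructor
  · nlinarith
  · nlinarith [mul_nonneg hc.le h0]

theorem A_basis (a b : Fin 6) :
    A0 (EuclideanSpace.basisFun (Fin 6) ℝ a) (EuclideanSpace.basisFun (Fin 6) ℝ b) = (Az 0 a b : ℝ) ∧
    A1 (EuclideanSpace.basisFun (Fin 6) ℝ a) (EuclideanSpace.basisFun (Fin 6) ℝ b) = (Az 1 a b : ℝ) ∧
    A2 (EuclideanSpace.basisFun (Fin 6) ℝ a) (EuclideanSpace.basisFun (Fin 6) ℝ b) =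
      (Az 2 a b : ℝ) := by
  unfold A0 A1 A2
  simp only [EuclideanSpace.basisFun_apply, PiLp.single_apply]
  fin_cases a <;> fin_cases b <;> simp [Az, eps3]

theorem tn_exR (c : ℝ) : tn (EuclideanSpace.basisFun (Fin 6) ℝ) (exR c) = scl (-(c / 3)) cZ := by
  funext a b i j
  have hi : ∀ a b : Fin 6, inner ℝ (EuclideanSpace.basisFun (Fin 6) ℝ a)
      (EuclideanSpace.basisFun (Fin 6) ℝ b) = ((dz a b : ℤ) : ℝ) := by
    intro a b
    rw [orthonormal_iff_ite.1 (EuclideanSpace.basisFun (Fin 6) ℝ).orthonormal a b]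
    unfold dz
    split_ifs <;> simp
  unfold tn scl cZ exR cu Zt
  simp only [hi, (A_basis _ _).1, (A_basis _ _).2.1, (A_basis _ _).2.2]
  push_cast
  ring

/-- **The wrong sign.** -/
theorem exR_gbc {c : ℝ} (hc : 0 < c) :
    0 < Hopf6.gbc (EuclideanSpace.basisFun (Fin 6) ℝ) (exR c) := by
  have hpi := Real.pi_pos
  rw [gbc_eq, tn_exR, gb_scl, gb_cZ]
  have : (-(c / 3)) ^ 3 * (-167040 : ℝ) = c ^ 3 * (167040 / 27) := by ring
  rw [this]
  positivity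

/-- the tensor is Einstein -/
theorem exR_ric (c : ℝ) (x : E6) (hx : ‖x‖ = 1) :
    ric (EuclideanSpace.basisFun (Fin 6) ℝ) (exR c) x = -(33 * c) := by
  have ex : ∀ v : E6, vc (EuclideanSpace.basisFun (Fin 6) ℝ)
      (fun a => inner ℝ (EuclideanSpace.basisFun (Fin 6) ℝ a) v) = v := by
    intro v
    unfold vc
    exact (EuclideanSpace.basisFun (Fin 6) ℝ).sum_repr' v
  have h1 := ric_tn (EuclideanSpace.basisFun (Fin 6) ℝ) (exR_curv c)
    (fun a => inner ℝ (EuclideanSpace.basisFun (Fin 6) ℝ a) x)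
  have h2 := vc_norm (EuclideanSpace.basisFun (Fin 6) ℝ)
    (fun a => inner ℝ (EuclideanSpace.basisFun (Fin 6) ℝ a) x)
  rw [ex, hx] at h2
  rw [ex, tn_exR] at h1
  rw [← h1]
  have e : ∀ a b, Rc (scl (-(c / 3)) cZ) a b = if a = b then -(33 * c) else 0 := by
    intro a b
    have : Rc (scl (-(c / 3)) cZ) a b = -(c / 3) * Rc cZ a b := by
      unfold Rc scl
      rw [Finset.mul_sum]
    rw [this, Rc_cZ]
    split_ifs <;> ring
  simp only [e, ite_mul, zero_mul, Finset.sum_ite_eq, Finset.mem_univ, if_true,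
    ← Finset.mul_sum]
  have h3 : ∑ a, (inner ℝ (EuclideanSpace.basisFun (Fin 6) ℝ a) x *
      inner ℝ (EuclideanSpace.basisFun (Fin 6) ℝ a) x : ℝ) = 1 := by
    simp only [pow_two, mul_one] at h2
    exact h2.symm
  rw [h3]
  ring

end Pool.Agent.Run7.h82.P6
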