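import Pool.Agent.Run7.h82.P6.Vec

/-!
# Constant curvature and fields of curvature tensors
-/

set_option autoImplicit false

open scoped BigOperators

namespace Pool.Agent.Run7.h82.P6

open Hopf6 Pool.Agent.TH570.Hopf MeasureTheory

section
variable {V : Type*} [NormedAddCommGroup V] [InnerProductSpace ℝ V]
variable (e : OrthonormalBasis (Fin 6) ℝ V) {R : V → V → V → V → ℝ}

/-- the integrand for constant curvature `-c` -/
theorem const_gbc (hR : AlgCurv R) {c : ℝ}
    (h : ∀ x y : V, ‖x‖ = 1 → ‖y‖ = 1 → inner ℝ x y = 0 → R x y x y = -c) :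
    Hopf6.gbc e R = -(roundGB c) := by
  obtain ⟨S, hS⟩ : ∃ S : V → V → V → V → ℝ, S = fun x y z w =>
    R x y z w + c * (inner ℝ x z * inner ℝ y w - inner ℝ x w * inner ℝ y z) := ⟨_, rfl⟩
  have hSc : AlgCurv S := by
    rw [hS]
    refine ⟨fun x x' y z w => ?_, fun t x y z w => ?_, fun x y z w => ?_, fun x y z w => ?_,
      fun x y z w => ?_⟩
    · simp only [hR.add, inner_add_left]
      ring
    · simp only [hR.smul, inner_smul_left, conj_trivial]
      ring
    · simp only [hR.anti x y z w]
      ring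
    · simp only [hR.pair x y z w]
      rw [real_inner_comm x z, real_inner_comm y w, real_inner_comm y z, real_inner_comm x w]
      ring
    · rw [real_inner_comm y x, real_inner_comm z x, real_inner_comm z y]
      linear_combination hR.bianchi x y z w
  have hS0 : Hopf6.SecIn S 0 0 := by
    intro x y hx hy hxy
    have hxx : inner ℝ x x = (1 : ℝ) := by rw [real_inner_self_eq_norm_sq, hx]; norm_num
    have hyy : inner ℝ y y = (1 : ℝ) := by rw [real_inner_self_eq_norm_sq, hy]; norm_num
    have e1 : S x y x y = 0 := by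
      rw [hS]
      simp only [h x y hx hy hxy, hxx, hyy, hxy]
      ring
    rw [e1]
    exact ⟨le_refl _, le_refl _⟩
  have hz := zero_of_sec hSc hS0
  have ht : tn e R = scl (-c) UT := by
    funext a b i j
    have h1 := hz (e a) (e b) (e i) (e j)
    rw [hS] at h1
    have hi : ∀ a b, inner ℝ (e a) (e b) = if a = b then (1 : ℝ) else 0 :=
      orthonormal_iff_ite.1 e.orthonormal
    simp only [hi] at h1
    unfold tn scl UT
    linarith
  have hU : gb UT = 5760 := by
    rw [gb_G3, G3_UT2 UT_curv, sc_UT]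
    norm_num
  have hpi := Real.pi_pos
  rw [gbc_eq, ht, gb_scl, hU]
  unfold roundGB
  field_simp
  ring

/-- **The pointwise theorem.** -/
theorem six_all (hR : AlgCurv R) {c : ℝ} (hc : 0 < c) (h : Hopf6.SecIn R (-(6 * c)) (-c)) :
    Hopf6.gbc e R ≤ -(roundGB c * (1 + (-scalar e R / c - 30) / 240)) ∧
      Hopf6.gbc e R ≤ -(roundGB c) ∧
      (Hopf6.gbc e R = -(roundGB c) ↔
        ∀ x y : V, ‖x‖ = 1 → ‖y‖ = 1 → inner ℝ x y = 0 → R x y x y = -c) :=
  ⟨six_neg e hR hc h, six_neg_round e hR hc h, fun he => six_rigid e hR hc h he,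
    fun h' => const_gbc e hR h'⟩

end

section
variable {M : Type} [MeasurableSpace M] (μ : Measure M) (K : CurvField M)

/-- strictly negative integral -/
theorem int_neg (hμ : μ ≠ 0) (h : ∀ p, K.gbc p < 0) (hint : Integrable K.gbc μ) :
    ∫ p, K.gbc p ∂μ < 0 := by
  have hint' : Integrable (fun p => -(K.gbc p)) μ := hint.neg
  have h0' : 0 ≤ fun p => -(K.gbc p) := fun p => by
    have := h p
    simp only [Pi.zero_apply]
    linarith
  have h2 : 0 < ∫ p, -(K.gbc p) ∂μ := by
    rw [integral_pos_iff_support_of_nonneg h0' hint']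
    have hs : Function.support (fun p => -(K.gbc p)) = Set.univ := by
      ext p
      simp only [Function.mem_support, Set.mem_univ, iff_true]
      have := h p
      intro h0
      linarith
    rw [hs]
    exact pos_iff_ne_zero.2 (by simpa using hμ)
  rw [integral_neg] at h2
  linarith

/-- the volume bound -/
theorem int_vol [IsFiniteMeasure μ] {c : ℝ} (h : ∀ p, K.gbc p ≤ -(roundGB c))
    (hint : Integrable K.gbc μ) : ∫ p, K.gbc p ∂μ ≤ -(roundGB c * μ.real Set.univ) := by
  have h1 : ∫ p, K.gbc p ∂μ ≤ ∫ _, -(roundGB c) ∂μ :=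
    integral_mono hint (integrable_const _) h
  refine h1.trans (le_of_eq ?_)
  rw [integral_const, smul_eq_mul]
  ring

/-- equality in the volume bound -/
theorem int_vol_eq [IsFiniteMeasure μ] {c : ℝ} (h : ∀ p, K.gbc p ≤ -(roundGB c))
    (hint : Integrable K.gbc μ) (he : ∫ p, K.gbc p ∂μ = -(roundGB c * μ.real Set.univ)) :
    ∀ᵐ p ∂μ, K.gbc p = -(roundGB c) := by
  have h1 : ∫ p, (-(roundGB c) - K.gbc p) ∂μ = 0 := by
    rw [integral_sub (integrable_const _) hint, he, integral_const, smul_eq_mul]
    ring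
  have h2 : (0 : M → ℝ) ≤ fun p => -(roundGB c) - K.gbc p := fun p => by
    have := h p
    simp only [Pi.zero_apply]
    linarith
  have h3 := (integral_eq_zero_iff_of_nonneg h2 ((integrable_const _).sub hint)).1 h1
  filter_upwards [h3] with p hp
  simp only [Pi.zero_apply] at hp
  linarith

end

end Pool.Agent.Run7.h82.P6
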