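import Pool.Agent.H933R2.Hopf.Weyl0

/-!
# The block `[2, 1]` with the Weyl part

For a trace-free symmetric form `X` on `x^⊥` and a Weyl tensor `W` on `x^⊥` the tensors
`q^i = π_{ib} X_{cd} - π_{ic} X_{bd} - (1/4) (π_{bd} X_{ic} - π_{cd} X_{ib}) + γ W_{idbc}` have
the Gram matrix `2 π |X|² - (5/2) X² + 4 γ Φ + γ² SS W`.
-/

set_option autoImplicit false

open scoped BigOperators

namespace Pool.Agent.Run7.h82.P6

open Hopf6

section gram

variable {W : Ten} {x : Fin 6 → ℝ} {X : Fin 6 → Fin 6 → ℝ}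

/-- the auxiliary tensors -/
noncomputable def q (W : Ten) (x : Fin 6 → ℝ) (X : Fin 6 → Fin 6 → ℝ) (γ : ℝ) (i b c d : Fin 6) : ℝ :=
  pr x i b * X c d - pr x i c * X b d - 1 / 4 * (pr x b d * X i c - pr x c d * X i b) +
    γ * W i d b c

variable (hx : ∑ a, x a ^ 2 = 1) (hW : IsCurv W) (hWx : ∀ b c d, ∑ a, x a * W a b c d = 0)
  (htr : ∀ b d, ∑ a, W a b a d = 0) (hX : ∀ a b, X b a = X a b)
  (hXx : ∀ b, ∑ a, x a * X a b = 0) (hXt : ∑ a, X a a = 0)

theorem q_anti (hW : IsCurv W) (γ : ℝ) (i b c d : Fin 6) : q W x X γ i c b d = - q W x X γ i b c d := by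
  unfold q
  rw [B1.anti2 hW i d b c]
  ring

include hX hXx in
theorem Xx' (a : Fin 6) : ∑ b, x b * X a b = 0 := by
  rw [← hXx a]
  exact Finset.sum_congr rfl fun b _ => by rw [hX]

include hx hW hWx hX hXx in
/-- `x_b q_{bcd} = 0` -/
theorem q_x (γ : ℝ) (i c d : Fin 6) : ∑ b, x b * q W x X γ i b c d = 0 := by
  have e : ∀ b, x b * q W x X γ i b c d = X c d * (x b * pr x i b) - pr x i c * (x b * X b d)
      - 1 / 4 * X i c * (x b * pr x b d) + 1 / 4 * pr x c d * (x b * X i b)
      + γ * (x b * W i d b c) := by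
    intro b
    unfold q
    ring
  simp only [e, Finset.sum_add_distrib, Finset.sum_sub_distrib, ← Finset.mul_sum, B1.x_pr hx,
    B1.x_pr' hx, hXx, Xx' hX hXx, B1.kx3 hW hWx]
  ring

include hx hW htr hX hXx hXt in
/-- the trace of `q` -/
theorem q_tr (γ : ℝ) (i c : Fin 6) : ∑ b, q W x X γ i b c b = 0 := by
  have e : ∀ b, q W x X γ i b c b = pr x i b * X c b - pr x i c * X b b
      - 1 / 4 * (X i c * pr x b b) + 1 / 4 * (pr x c b * X i b) - γ * (W i b c b) := by
    intro b
    unfold q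
    rw [B1.anti2 hW i b c b]
    ring
  simp only [e, Finset.sum_add_distrib, Finset.sum_sub_distrib, ← Finset.mul_sum, hXt,
    B1.tr_pr hx, B1.tr24 hW htr]
  rw [B1.pr_sum i (fun b => X c b) (Xx' hX hXx c), B1.pr_sum c (fun b => X i b) (Xx' hX hXx i),
    hX i c]
  ring

/-- contraction with `X` -/
def Phi (W : Ten) (X : Fin 6 → Fin 6 → ℝ) (i j : Fin 6) : ℝ := ∑ c, ∑ d, X c d * W i c j d

include hX in
theorem Phi_symm (hW : IsCurv W) (i j : Fin 6) : Phi W X j i = Phi W X i j := by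
  unfold Phi
  rw [Finset.sum_comm]
  refine Finset.sum_congr rfl fun c _ => Finset.sum_congr rfl fun d _ => ?_
  rw [hX c d, hW.pair i c j d]

/-- sums with the projection in two slots -/
theorem pr_con {f : Fin 6 → Fin 6 → ℝ} (h1 : ∀ d, ∑ b, x b * f b d = 0) (h2 : ∑ b, f b b = 0) :
    ∑ b, ∑ d, pr x b d * f b d = 0 := by
  have e : ∀ b d, pr x b d * f b d = (if b = d then f b d else 0) - x d * (x b * f b d) := by
    intro b d
    unfold pr
    split_ifs <;> ring
  simp only [e, Finset.sum_sub_distrib]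
  have e1 : ∑ b, ∑ d, (if b = d then f b d else 0) = 0 := by
    simp [h2]
  have e2 : ∑ b, ∑ d, x d * (x b * f b d) = 0 := by
    rw [Finset.sum_comm]
    refine Finset.sum_eq_zero fun d _ => ?_
    rw [← Finset.mul_sum, h1, mul_zero]
  rw [e1, e2]
  ring

include hx hW hWx htr hX hXx hXt in
/-- the Gram matrix of the tensors `q^i` -/
theorem gramq (γ : ℝ) (i j : Fin 6) :
    ∑ b, ∑ c, ∑ d, q W x X γ i b c d * q W x X γ j b c d =
      2 * (pr x i j * ∑ c, ∑ d, X c d * X c d) - 5 / 2 * (∑ c, X i c * X j c)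
        + 4 * γ * Phi W X i j + γ ^ 2 * SS W i j := by
  have hXx' := Xx' hX hXx
  have hq := q_x (W := W) (X := X) hx hW hWx hX hXx γ j
  have hqt := q_tr (W := W) (X := X) hx hW htr hX hXx hXt γ j
  -- the quarter term drops
  have k1 : ∑ b, ∑ c, ∑ d, (pr x b d * X i c) * q W x X γ j b c d = 0 := by
    rw [Finset.sum_comm]
    refine Finset.sum_eq_zero fun c _ => ?_
    have e : ∀ b d, (pr x b d * X i c) * q W x X γ j b c d =
        X i c * (pr x b d * q W x X γ j b c d) := by
      intro b d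
      ring
    simp only [e, ← Finset.mul_sum]
    rw [pr_con (fun d => hq c d) (hqt c), mul_zero]
  have k2 : ∑ b, ∑ c, ∑ d, (pr x c d * X i b) * q W x X γ j b c d = 0 := by
    refine Finset.sum_eq_zero fun b _ => ?_
    have e : ∀ c d, (pr x c d * X i b) * q W x X γ j b c d =
        - (X i b * (pr x c d * q W x X γ j c b d)) := by
      intro c d
      rw [q_anti hW γ j c b d]
      ring
    simp only [e, Finset.sum_neg_distrib, ← Finset.mul_sum]
    rw [pr_con (fun d => hq b d) (hqt b), mul_zero, neg_zero]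
  -- the main terms
  have m1 : ∑ b, ∑ c, ∑ d, (pr x i b * X c d) * q W x X γ j b c d =
      ∑ c, ∑ d, X c d * q W x X γ j i c d := by
    rw [B1.sum_cyc' (fun b c d => (pr x i b * X c d) * q W x X γ j b c d) |>.symm]
    rw [B1.sum_cyc' (fun b c d => (pr x i b * X c d) * q W x X γ j b c d)]
    rw [Finset.sum_comm]
    refine Finset.sum_congr rfl fun c _ => ?_
    rw [Finset.sum_comm]
    refine Finset.sum_congr rfl fun d _ => ?_
    rw [← B1.pr_sum i (fun b => q W x X γ j b c d) (hq c d), Finset.mul_sum]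
    exact Finset.sum_congr rfl fun b _ => by ring
  have m2 : ∑ b, ∑ c, ∑ d, (pr x i c * X b d) * q W x X γ j b c d =
      - ∑ c, ∑ d, X c d * q W x X γ j i c d := by
    rw [← m1, ← Finset.sum_neg_distrib]
    rw [Finset.sum_comm]
    refine Finset.sum_congr rfl fun b _ => ?_
    rw [← Finset.sum_neg_distrib]
    refine Finset.sum_congr rfl fun c _ => ?_
    rw [← Finset.sum_neg_distrib]
    refine Finset.sum_congr rfl fun d _ => ?_
    rw [q_anti hW γ j b c d]
    ring
  have hXX : ∑ c, ∑ d, X c d * (pr x c d * X i j) = 0 := by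
    have e : ∀ c d, X c d * (pr x c d * X i j) = X i j * (pr x c d * X c d) := by
      intro c d
      ring
    simp only [e, ← Finset.mul_sum]
    rw [pr_con hXx hXt, mul_zero]
  have m3 : ∑ c, ∑ d, X c d * q W x X γ j i c d =
      pr x i j * (∑ c, ∑ d, X c d * X c d) - 5 / 4 * (∑ c, X i c * X j c) + γ * Phi W X i j := by
    have e : ∀ c d, X c d * q W x X γ j i c d = pr x i j * (X c d * X c d)
        - (pr x j c * X c d) * X i d - 1 / 4 * ((pr x i d * X c d) * X j c)
        + 1 / 4 * (X c d * (pr x c d * X i j)) + γ * (X c d * W j d i c) := by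
      intro c d
      unfold q
      rw [B1.pr_symm j i, hX i j]
      ring
    simp only [e, Finset.sum_add_distrib, Finset.sum_sub_distrib, ← Finset.mul_sum]
    rw [hXX]
    have g1 : ∑ c, ∑ d, (pr x j c * X c d) * X i d = ∑ c, X i c * X j c := by
      rw [Finset.sum_comm]
      refine Finset.sum_congr rfl fun d _ => ?_
      rw [← Finset.sum_mul, B1.pr_sum j (fun c => X c d) (hXx d)]
      ring
    have g2 : ∑ c, ∑ d, (pr x i d * X c d) * X j c = ∑ c, X i c * X j c := by
      refine Finset.sum_congr rfl fun c _ => ?_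
      rw [← Finset.sum_mul, B1.pr_sum i (fun d => X c d) (hXx' c), hX i c]
    have g3 : ∑ c, ∑ d, X c d * W j d i c = Phi W X i j := by
      rw [← Phi_symm hX hW i j]
      unfold Phi
      rw [Finset.sum_comm]
      exact Finset.sum_congr rfl fun c _ => Finset.sum_congr rfl fun d _ => by rw [hX c d]
    rw [g1, g2, g3]
    ring
  -- the Weyl terms
  have w1 : ∑ b, ∑ c, ∑ d, W i d b c * q W x X γ j b c d = 2 * Phi W X i j + γ * SS W i j := by
    have e : ∀ b c d, W i d b c * q W x X γ j b c d = pr x j b * W i d b c * X c d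
        - pr x j c * W i d b c * X b d - 1 / 4 * ((pr x b d * W i d b c) * X j c)
        + 1 / 4 * ((pr x c d * W i d b c) * X j b) + γ * (W i d b c * W j d b c) := by
      intro b c d
      unfold q
      ring
    simp only [e, Finset.sum_add_distrib, Finset.sum_sub_distrib, ← Finset.mul_sum]
    have g1 : ∑ b, ∑ c, ∑ d, pr x j b * W i d b c * X c d = Phi W X i j := by
      rw [Finset.sum_comm]
      have e1 : ∀ c, ∑ b, ∑ d, pr x j b * W i d b c * X c d = ∑ d, X d c * W i d j c := by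
        intro c
        rw [Finset.sum_comm]
        refine Finset.sum_congr rfl fun d _ => ?_
        rw [← Finset.sum_mul, B1.pr_sum j (fun b => W i d b c) (B1.kx3 hW hWx i d c), hX d c]
        ring
      simp only [e1]
      rw [Finset.sum_comm]
      rfl
    have g2 : ∑ b, ∑ c, ∑ d, pr x j c * W i d b c * X b d = - Phi W X i j := by
      rw [← g1, Finset.sum_comm, ← Finset.sum_neg_distrib]
      refine Finset.sum_congr rfl fun b _ => ?_
      rw [← Finset.sum_neg_distrib]
      refine Finset.sum_congr rfl fun c _ => ?_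
      rw [← Finset.sum_neg_distrib]
      refine Finset.sum_congr rfl fun d _ => ?_
      rw [B1.anti2 hW i d b c]
      ring
    have g3 : ∑ b, ∑ c, ∑ d, (pr x b d * W i d b c) * X j c = 0 := by
      rw [Finset.sum_comm]
      refine Finset.sum_eq_zero fun c _ => ?_
      simp only [← Finset.sum_mul]
      rw [pr_con (fun d => B1.kx3 hW hWx i d c) (B1.tr23 hW htr i c), zero_mul]
    have g4 : ∑ b, ∑ c, ∑ d, (pr x c d * W i d b c) * X j b = 0 := by
      refine Finset.sum_eq_zero fun b _ => ?_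
      simp only [← Finset.sum_mul]
      rw [pr_con (fun d => B1.kx4 hW hWx i d b) (B1.tr24 hW htr i b), zero_mul]
    have g5 : ∑ b, ∑ c, ∑ d, W i d b c * W j d b c = SS W i j :=
      B1.sum_cyc' (fun d b c => W i d b c * W j d b c)
    rw [g1, g2, g3, g4, g5]
    ring
  have e : ∀ b c d, q W x X γ i b c d * q W x X γ j b c d =
      (pr x i b * X c d) * q W x X γ j b c d - (pr x i c * X b d) * q W x X γ j b c d
      - 1 / 4 * ((pr x b d * X i c) * q W x X γ j b c d)
      + 1 / 4 * ((pr x c d * X i b) * q W x X γ j b c d)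
      + γ * (W i d b c * q W x X γ j b c d) := by
    intro b c d
    rw [show q W x X γ i b c d = pr x i b * X c d - pr x i c * X b d
      - 1 / 4 * (pr x b d * X i c - pr x c d * X i b) + γ * W i d b c from rfl]
    ring
  simp only [e, Finset.sum_add_distrib, Finset.sum_sub_distrib, ← Finset.mul_sum]
  rw [k1, k2, m1, m2, m3, w1]
  ring

include hx hW hWx htr hX hXx hXt in
/-- **The inequality.** -/
theorem q_ineq (γ : ℝ) {K : Fin 6 → Fin 6 → ℝ}
    (hK : ∀ y : Fin 6 → ℝ, 0 ≤ ∑ a, ∑ b, K a b * (y a * y b)) :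
    0 ≤ 2 * ((∑ i, ∑ j, K i j * pr x i j) * ∑ c, ∑ d, X c d * X c d)
      - 5 / 2 * (∑ i, ∑ j, K i j * ∑ c, X i c * X j c)
      + 4 * γ * (∑ i, ∑ j, K i j * Phi W X i j) + γ ^ 2 * ∑ i, ∑ j, K i j * SS W i j := by
  have h0 : 0 ≤ ∑ b, ∑ c, ∑ d, ∑ i, ∑ j, K i j * (q W x X γ i b c d * q W x X γ j b c d) :=
    Finset.sum_nonneg fun b _ => Finset.sum_nonneg fun c _ => Finset.sum_nonneg fun d _ =>
      hK fun i => q W x X γ i b c d
  have sw : ∀ f : Fin 6 → Fin 6 → Fin 6 → ℝ,
      ∑ a, ∑ i, ∑ j, f a i j = ∑ i, ∑ j, ∑ a, f a i j := fun f =>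
    B1.sum_cyc fun i j a => f a i j
  have h1 : ∑ b, ∑ c, ∑ d, ∑ i, ∑ j, K i j * (q W x X γ i b c d * q W x X γ j b c d) =
      ∑ i, ∑ j, K i j * ∑ b, ∑ c, ∑ d, q W x X γ i b c d * q W x X γ j b c d := by
    have e1 := fun b c => sw fun d i j => K i j * (q W x X γ i b c d * q W x X γ j b c d)
    have e2 := fun b => sw fun c i j => ∑ d, K i j * (q W x X γ i b c d * q W x X γ j b c d)
    have e3 := sw fun b i j => ∑ c, ∑ d, K i j * (q W x X γ i b c d * q W x X γ j b c d)
    simp only [e1, e2]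
    rw [e3]
    simp only [Finset.mul_sum]
  rw [h1] at h0
  simp only [gramq hx hW hWx htr hX hXx hXt] at h0
  obtain ⟨N, hN⟩ : ∃ N, N = ∑ c, ∑ d, X c d * X c d := ⟨_, rfl⟩
  obtain ⟨Y, hY⟩ : ∃ Y : Fin 6 → Fin 6 → ℝ, Y = fun i j => ∑ c, X i c * X j c := ⟨_, rfl⟩
  have hY' : ∀ i j, ∑ c, X i c * X j c = Y i j := fun i j => by rw [hY]
  rw [← hN]
  simp only [← hN] at h0
  simp only [hY'] at h0 ⊢
  refine h0.trans (le_of_eq ?_)
  simp only [Finset.mul_sum, Finset.sum_mul, ← Finset.sum_add_distrib, ← Finset.sum_sub_distrib]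
  exact Finset.sum_congr rfl fun i _ => Finset.sum_congr rfl fun j _ => by ring

end gram

end Pool.Agent.Run7.h82.P6
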