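import Pool.Agent.Run7.h82.P6.M21

/-!
# The block `[2, 1]` for a curvature tensor: contractions of the Weyl part
-/

set_option autoImplicit false

open scoped BigOperators Matrix

namespace Pool.Agent.Run7.h82.P6

open Hopf6 Hopf6.B2

variable {R : Ten} {x : Fin 6 → ℝ}

theorem Wt_curv (hR : IsCurv R) : IsCurv (Wt R x) := by
  have hF := R1curv hR (x := x)
  have hK := KNcurv (x := x) (Amsymm hR (x := x))
  constructor
  · intro a b c d; unfold Wt; rw [hF.anti, hK.anti]; ring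
  · intro a b c d; unfold Wt; rw [hF.pair, hK.pair]
  · intro a b c d; unfold Wt
    linear_combination hF.bianchi a b c d + hK.bianchi a b c d

theorem Wt_kill (hR : IsCurv R) (hx : ∑ a, x a ^ 2 = 1) (b c d : Fin 6) :
    ∑ a, x a * Wt R x a b c d = 0 := by
  unfold Wt
  simp only [mul_add, Finset.sum_add_distrib]
  rw [R1kill hR hx, KNkill hx (Amkill hR hx), add_zero]

theorem Wt_tr (hR : IsCurv R) (hx : ∑ a, x a ^ 2 = 1) (b d : Fin 6) :
    ∑ a, Wt R x a b a d = 0 := by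
  unfold Wt
  simp only [Finset.sum_add_distrib]
  rw [R1tr hR hx, KNtr hx (Amsymm hR) (Amkill hR hx), Amtr hx]
  unfold Am
  ring

theorem nS_Wt (hR : IsCurv R) (hx : ∑ a, x a ^ 2 = 1) : nS (Wt R x) = nW R x := by
  have e0 : nS (Wt R x) = ∑ a, SS (Wt R x) a a := rfl
  have e1 : nS (R1 R x) = ∑ a, SS (R1 R x) a a := rfl
  rw [e0]
  simp only [SSW hR hx, Finset.sum_add_distrib, Finset.sum_sub_distrib, ← Finset.mul_sum,
    TTtr hR hx, rhotr hx, prtr hx]
  rw [← e1, nS_R1 hR hx, rho_norm hR hx]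
  unfold nW
  ring

/-- `J_ab W_acde W_bcde` -/
theorem JSS_Wt (hR : IsCurv R) (hx : ∑ a, x a ^ 2 = 1) :
    ∑ a, ∑ b, Jm R x a b * SS (Wt R x) a b = (jx R x * nW R x - g221 R x) / 3 := by
  have hw : ∑ a, ∑ b, Jm R x a b * SS (Wt R x) a b = wt (Jm R x) (SS (Wt R x)) := rfl
  have e : SS (Wt R x) = fun a b => SS (R1 R x) a b - 4 / 3 * TT R x a b
      - 10 / 9 * rr R x a b + 4 / 9 * (sc R - 2 * jx R x) * rho R x a b
      + (2 / 9 * (∑ a, rr R x a a) - (sc R - 2 * jx R x) ^ 2 / 18) * pr x a b := by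
    funext a b; exact SSW hR hx a b
  rw [hw, e, wt_add, wt_add, wt_sub, wt_sub, wt_smul, wt_smul, wt_smul, wt_smul,
    wt_SS_R1 hR hx, wt_TT hR hx, wt_rr hR hx, wt_rho hR, wt_pr hR, rho_norm hR hx]
  unfold nW g221
  ring

/-- the Ricci tensor restricted to `x^⊥`, in components -/
theorem MQ_apply (hR : IsCurv R) (b d : Fin 6) :
    MQ R x b d = rho R x b d + Jm R x b d := by
  have h1 : MQ R x = MR R - Matrix.vecMulVec (ux R x) x - Matrix.vecMulVec x (ux R x)
      + Matrix.vecMulVec x (ux R x) * Matrix.vecMulVec x x := by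
    unfold MQ MP
    rw [Matrix.sub_mul, Matrix.one_mul, vec_MR hR, Matrix.mul_sub, Matrix.mul_one, Matrix.sub_mul,
      MR_vec]
    abel
  have h2 : (Matrix.vecMulVec x (ux R x) * Matrix.vecMulVec x x) b d =
      jx R x * (x b * x d) := by
    simp only [Matrix.mul_apply, Matrix.vecMulVec_apply]
    rw [← jsum, Finset.sum_mul]
    exact Finset.sum_congr rfl fun j _ => by ring
  rw [h1]
  simp only [Matrix.add_apply, Matrix.sub_apply, h2]
  simp only [Matrix.vecMulVec_apply, MR, Matrix.of_apply, rho]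
  ring

/-- the matrix of `Am` -/
noncomputable def MA (R : Ten) (x : Fin 6 → ℝ) : Matrix (Fin 6) (Fin 6) ℝ :=
  (-(1 / 3) : ℝ) • (MQ R x - MJ R x) + ((sc R - 2 * jx R x) / 24) • MP x

theorem MP_apply (a b : Fin 6) : MP x a b = pr x a b := by
  unfold MP pr
  simp only [Matrix.sub_apply, Matrix.vecMulVec_apply, Matrix.one_apply]

theorem MA_apply (hR : IsCurv R) (b d : Fin 6) : MA R x b d = Am R x b d := by
  unfold MA Am
  simp only [Matrix.add_apply, Matrix.smul_apply, Matrix.sub_apply, MQ_apply hR, MP_apply,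
    smul_eq_mul]
  simp only [MJ, Matrix.of_apply]
  ring

theorem tr_MA_J (hR : IsCurv R) : (MJ R x * MA R x).trace =
    -(1 / 3) * (mJR R x - mJJ R x) + (sc R - 2 * jx R x) / 24 * jx R x := by
  unfold MA
  simp only [Matrix.mul_add, Matrix.mul_smul, Matrix.mul_sub, Matrix.trace_add,
    Matrix.trace_smul, Matrix.trace_sub, smul_eq_mul, tr_JQ hR, tr_JJ hR, MJ_MP x hR, tr_MJ]

theorem tr_MA_Q (hR : IsCurv R) (hx : ∑ a, x a ^ 2 = 1) : (MQ R x * MA R x).trace =
    -(1 / 3) * (nR R - 2 * muu R x + jx R x ^ 2 - mJR R x)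
      + (sc R - 2 * jx R x) / 24 * (sc R - jx R x) := by
  unfold MA
  simp only [Matrix.mul_add, Matrix.mul_smul, Matrix.mul_sub, Matrix.trace_add,
    Matrix.trace_smul, Matrix.trace_sub, smul_eq_mul, tr_QQ hR hx,
    Matrix.trace_mul_comm (MQ R x) (MJ R x), tr_JQ hR, MQ_MP hx, tr_MQ hx]

theorem tr_JJA (hR : IsCurv R) : (MJ R x * MJ R x * MA R x).trace =
    -(1 / 3) * (mJJR R x - mJJJ R x) + (sc R - 2 * jx R x) / 24 * mJJ R x := by
  unfold MA
  simp only [Matrix.mul_add, Matrix.mul_smul, Matrix.mul_sub, Matrix.trace_add,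
    Matrix.trace_smul, Matrix.trace_sub, smul_eq_mul, tr_JJQ hR, tr_JJJ]
  rw [Matrix.mul_assoc (MJ R x) (MJ R x) (MP x), MJ_MP x hR, tr_JJ hR]

theorem tr_QJA (hR : IsCurv R) (hx : ∑ a, x a ^ 2 = 1) : (MQ R x * MJ R x * MA R x).trace =
    -(1 / 3) * (mJRR R x - mJuu R x - mJJR R x) + (sc R - 2 * jx R x) / 24 * mJR R x := by
  have h1 : (MQ R x * MJ R x * MJ R x).trace = mJJR R x := by
    rw [Matrix.mul_assoc, Matrix.trace_mul_comm, tr_JJQ hR]
  unfold MA
  simp only [Matrix.mul_add, Matrix.mul_smul, Matrix.mul_sub, Matrix.trace_add,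
    Matrix.trace_smul, Matrix.trace_sub, smul_eq_mul, tr_QJQ hR hx, h1]
  rw [Matrix.mul_assoc (MQ R x) (MJ R x) (MP x), MJ_MP x hR, Matrix.trace_mul_comm, tr_JQ hR]

theorem tr_JQA (hR : IsCurv R) (hx : ∑ a, x a ^ 2 = 1) : (MJ R x * MQ R x * MA R x).trace =
    -(1 / 3) * (mJRR R x - mJuu R x - mJJR R x) + (sc R - 2 * jx R x) / 24 * mJR R x := by
  have h1 : (MJ R x * MQ R x * MJ R x).trace = mJJR R x := by
    rw [Matrix.trace_mul_comm, ← Matrix.mul_assoc, tr_JJQ hR]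
  have h2 : (MJ R x * MQ R x * MQ R x).trace = mJRR R x - mJuu R x := by
    rw [← tr_QJQ hR hx, Matrix.trace_mul_comm, ← Matrix.mul_assoc]
  unfold MA
  simp only [Matrix.mul_add, Matrix.mul_smul, Matrix.mul_sub, Matrix.trace_add,
    Matrix.trace_smul, Matrix.trace_sub, smul_eq_mul, h1, h2]
  rw [Matrix.mul_assoc (MJ R x) (MQ R x) (MP x), MQ_MP hx, tr_JQ hR]

/-- weighted contraction of the Kulkarni-Nomizu product -/
theorem wt_KN {A X : Fin 6 → Fin 6 → ℝ} (hA : ∀ a b, A b a = A a b)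
    (hAx : ∀ b, ∑ a, x a * A a b = 0) (hX : ∀ a b, X b a = X a b)
    (hXx : ∀ b, ∑ a, x a * X a b = 0) (hR : IsCurv R) :
    wt (Jm R x) (Phi (KN x A) X) = jx R x * (∑ a, ∑ b, X a b * A a b)
      + (∑ a, X a a) * wt (Jm R x) A
      - (∑ a, ∑ b, ∑ c, X a b * Jm R x b c * A c a)
      - (∑ a, ∑ b, ∑ c, Jm R x a b * X b c * A c a) := by
  have hXx' : ∀ a, ∑ b, x b * X a b = 0 := Xx' hX hXx
  have hP : Phi (KN x A) X = fun i j => (∑ a, ∑ b, X a b * A a b) * pr x i j
      + (∑ a, X a a) * A i j - (∑ c, X c i * A c j) - (∑ d, X j d * A i d) := by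
    funext i j
    unfold Phi
    have e : ∀ c d, X c d * KN x A i c j d = pr x i j * (X c d * A c d)
        - (pr x i d * X c d) * A c j + (pr x c d * X c d) * A i j
        - (pr x c j * X c d) * A i d := by
      intro c d
      simp only [KN]
      ring
    simp only [e, Finset.sum_add_distrib, Finset.sum_sub_distrib, ← Finset.mul_sum]
    have g1 : ∑ c, ∑ d, (pr x i d * X c d) * A c j = ∑ c, X c i * A c j := by
      refine Finset.sum_congr rfl fun c _ => ?_
      rw [← Finset.sum_mul, B1.pr_sum i (fun d => X c d) (hXx' c)]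
    have g2 : ∑ c, ∑ d, (pr x c d * X c d) * A i j = (∑ a, X a a) * A i j := by
      rw [Finset.sum_mul]
      refine Finset.sum_congr rfl fun c _ => ?_
      rw [← Finset.sum_mul, B1.pr_sum c (fun d => X c d) (hXx' c)]
    have g3 : ∑ c, ∑ d, (pr x c j * X c d) * A i d = ∑ d, X j d * A i d := by
      rw [Finset.sum_comm]
      refine Finset.sum_congr rfl fun d _ => ?_
      rw [← Finset.sum_mul, B1.pr_sum' j (fun c => X c d) (hXx d)]
    rw [g1, g2, g3]
    ring
  rw [hP, wt_sub, wt_sub, wt_add, wt_smul, wt_smul, wt_pr hR]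
  have h1 : wt (Jm R x) (fun i j => ∑ c, X c i * A c j) =
      ∑ a, ∑ b, ∑ c, X a b * Jm R x b c * A c a := by
    unfold wt
    simp only [Finset.mul_sum]
    rw [← B1.sum_cyc' (fun c i j => X c i * Jm R x i j * A j c)]
    refine Finset.sum_congr rfl fun i _ => Finset.sum_congr rfl fun j _ =>
      Finset.sum_congr rfl fun c _ => ?_
    rw [hA c j]
    ring
  have h2 : wt (Jm R x) (fun i j => ∑ d, X j d * A i d) =
      ∑ a, ∑ b, ∑ c, Jm R x a b * X b c * A c a := by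
    unfold wt
    simp only [Finset.mul_sum]
    refine Finset.sum_congr rfl fun a _ => Finset.sum_congr rfl fun b _ =>
      Finset.sum_congr rfl fun c _ => ?_
    rw [hA a c]
    ring
  rw [h1, h2]
  ring

/-- replacing `R1` by `R` -/
theorem wt_R1 (hR : IsCurv R) {Y : Fin 6 → Fin 6 → ℝ} (hYx : ∀ b, ∑ a, x a * Y a b = 0)
    (hYx' : ∀ a, ∑ b, x b * Y a b = 0) :
    wt (Jm R x) (fun a b => ∑ c, ∑ e, R1 R x a c b e * Y c e) =
      wt (Jm R x) (fun a b => ∑ c, ∑ e, R a c b e * Y c e) := by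
  have e1 : ∀ a b, ∑ c, ∑ e, R1 R x a c b e * Y c e = (∑ c, ∑ e, R a c b e * Y c e)
      + x a * (∑ c, ∑ e, (- Hx R x c b e) * Y c e)
      + (∑ c, ∑ e, (- Hx R x e a c + x a * Jm R x c e) * Y c e) * x b := by
    intro a b
    have t : ∀ c e, R1 R x a c b e * Y c e = R a c b e * Y c e
        + x a * ((- Hx R x c b e) * Y c e)
        + (- Hx R x e a c + x a * Jm R x c e) * Y c e * x b
        + (Hx R x a b e - x b * Jm R x a e) * (x c * Y c e)
        + (Hx R x b a c - x a * Jm R x c b + x c * Jm R x a b) * (x e * Y c e) := by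
      intro c e; simp only [R1]; ring
    simp only [t, Finset.sum_add_distrib]
    have g1 : ∑ c, ∑ e, (Hx R x a b e - x b * Jm R x a e) * (x c * Y c e) = 0 := by
      rw [Finset.sum_comm]
      refine Finset.sum_eq_zero fun e _ => ?_
      rw [← Finset.mul_sum, hYx, mul_zero]
    have g2 : ∑ c, ∑ e, (Hx R x b a c - x a * Jm R x c b + x c * Jm R x a b) *
        (x e * Y c e) = 0 := by
      refine Finset.sum_eq_zero fun c _ => ?_
      rw [← Finset.mul_sum, hYx', mul_zero]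
    rw [g1, g2]
    simp only [Finset.mul_sum, Finset.sum_mul]
    ring
  have e : (fun a b => ∑ c, ∑ e, R1 R x a c b e * Y c e) = fun a b =>
      (∑ c, ∑ e, R a c b e * Y c e)
      + x a * (∑ c, ∑ e, (- Hx R x c b e) * Y c e)
      + (∑ c, ∑ e, (- Hx R x e a c + x a * Jm R x c e) * Y c e) * x b := by
    funext a b; exact e1 a b
  rw [e, wt_add, wt_add, wt_x1 (J1 hR) (fun b => ∑ c, ∑ e, (- Hx R x c b e) * Y c e),
    wt_x2 (J2 hR) (fun a => ∑ c, ∑ e, (- Hx R x e a c + x a * Jm R x c e) * Y c e)]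
  ring

theorem Phi_eq (W : Ten) (X : Fin 6 → Fin 6 → ℝ) :
    Phi W X = fun a b => ∑ c, ∑ e, W a c b e * X c e := by
  funext a b
  unfold Phi
  exact Finset.sum_congr rfl fun c _ => Finset.sum_congr rfl fun e _ => mul_comm _ _

theorem Phi_add (W W' : Ten) (X : Fin 6 → Fin 6 → ℝ) :
    Phi (fun a b c d => W a b c d + W' a b c d) X = fun i j => Phi W X i j + Phi W' X i j := by
  funext i j
  unfold Phi
  simp only [mul_add, Finset.sum_add_distrib]

theorem wt_R1_J (hR : IsCurv R) : wt (Jm R x) (Phi (R1 R x) (Jm R x)) = mJSJ R x := by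
  rw [Phi_eq, wt_R1 hR (J1 hR) (J2 hR)]
  unfold wt mJSJ
  refine Finset.sum_congr rfl fun a _ => Finset.sum_congr rfl fun b _ => ?_
  simp only [Finset.mul_sum]
  exact Finset.sum_congr rfl fun c _ => Finset.sum_congr rfl fun d _ => by ring

/-- the Ricci tensor restricted to `x^⊥`, as a function -/
noncomputable def MQf (R : Ten) (x : Fin 6 → ℝ) (a b : Fin 6) : ℝ := MQ R x a b

theorem wt_R1_Q (hR : IsCurv R) (hx : ∑ a, x a ^ 2 = 1) :
    wt (Jm R x) (Phi (R1 R x) (MQf R x)) = mJSR R x - 2 * mJSu R x + jx R x * mJJ R x := by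
  have e : Phi (R1 R x) (MQf R x) = fun a b => TT R x a b + Phi (R1 R x) (Jm R x) a b := by
    funext a b
    unfold TT
    rw [Phi_eq, Phi_eq]
    simp only [← Finset.sum_add_distrib]
    refine Finset.sum_congr rfl fun c _ => Finset.sum_congr rfl fun e _ => ?_
    rw [show MQf R x c e = MQ R x c e from rfl, MQ_apply hR]
    ring
  rw [e, wt_add, wt_TT hR hx, wt_R1_J hR]
  ring

/-- the contraction of the Weyl part with `J` and `J` -/
noncomputable def Z1 (R : Ten) (x : Fin 6 → ℝ) : ℝ :=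
  mJSJ R x - 2 / 3 * (jx R x * (mJR R x - mJJ R x) - (mJJR R x - mJJJ R x))
    + (sc R - 2 * jx R x) / 12 * (jx R x ^ 2 - mJJ R x)

/-- the contraction of the Weyl part with `J` and `Ric` -/
noncomputable def Z2 (R : Ten) (x : Fin 6 → ℝ) : ℝ :=
  mJSR R x - 2 * mJSu R x + jx R x * mJJ R x
    - 1 / 3 * ((mJR R x - mJJ R x) * (sc R - jx R x)
      + jx R x * (nR R - 2 * muu R x + jx R x ^ 2 - mJR R x)
      - 2 * (mJRR R x - mJuu R x - mJJR R x))
    + (sc R - 2 * jx R x) / 12 * (jx R x * (sc R - jx R x) - mJR R x)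

theorem MQ_symm' (hR : IsCurv R) (a b : Fin 6) : MQf R x b a = MQf R x a b := by
  unfold MQf
  conv_lhs => rw [← MQ_symm hR]
  rfl

theorem MQ_kill (hR : IsCurv R) (hx : ∑ a, x a ^ 2 = 1) (b : Fin 6) :
    ∑ a, x a * MQf R x a b = 0 := by
  have e : ∀ a, x a * MQf R x a b = x a * rho R x a b + x a * Jm R x a b := by
    intro a
    rw [show MQf R x a b = MQ R x a b from rfl, MQ_apply hR]
    ring
  simp only [e, Finset.sum_add_distrib, rhokill hR hx, J1 hR, add_zero]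

theorem wt_Wt_J (hR : IsCurv R) (hx : ∑ a, x a ^ 2 = 1) :
    wt (Jm R x) (Phi (Wt R x) (Jm R x)) = Z1 R x := by
  have h1 : Phi (Wt R x) (Jm R x) = fun i j =>
      Phi (R1 R x) (Jm R x) i j + Phi (KN x (Am R x)) (Jm R x) i j := Phi_add _ _ _
  rw [h1, wt_add, wt_R1_J hR, wt_KN (Amsymm hR) (Amkill hR hx) (Jsymm hR) (J1 hR) hR]
  have t1 : ∑ a, ∑ b, Jm R x a b * Am R x a b = (MJ R x * MA R x).trace := by
    rw [tr_mul2]
    refine Finset.sum_congr rfl fun a _ => Finset.sum_congr rfl fun b _ => ?_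
    rw [MA_apply hR, Amsymm hR]
    rfl
  have t2 : ∑ a, ∑ b, ∑ c, Jm R x a b * Jm R x b c * Am R x c a =
      (MJ R x * MJ R x * MA R x).trace := by
    rw [tr_mul3]
    refine Finset.sum_congr rfl fun a _ => Finset.sum_congr rfl fun b _ =>
      Finset.sum_congr rfl fun c _ => ?_
    rw [MA_apply hR]
    rfl
  have t3 : wt (Jm R x) (Am R x) = (MJ R x * MA R x).trace := t1
  rw [t1, t2, t3, trJ, tr_MA_J hR, tr_JJA hR]
  unfold Z1
  ring

theorem wt_Wt_Q (hR : IsCurv R) (hx : ∑ a, x a ^ 2 = 1) :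
    wt (Jm R x) (Phi (Wt R x) (MQf R x)) = Z2 R x := by
  have h1 : Phi (Wt R x) (MQf R x) = fun i j =>
      Phi (R1 R x) (MQf R x) i j + Phi (KN x (Am R x)) (MQf R x) i j := Phi_add _ _ _
  rw [h1, wt_add, wt_R1_Q hR hx, wt_KN (Amsymm hR) (Amkill hR hx) (MQ_symm' hR) (MQ_kill hR hx) hR]
  have t1 : ∑ a, ∑ b, MQf R x a b * Am R x a b = (MQ R x * MA R x).trace := by
    rw [tr_mul2]
    refine Finset.sum_congr rfl fun a _ => Finset.sum_congr rfl fun b _ => ?_
    rw [MA_apply hR, Amsymm hR]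
    rfl
  have t2 : ∑ a, ∑ b, ∑ c, MQf R x a b * Jm R x b c * Am R x c a =
      (MQ R x * MJ R x * MA R x).trace := by
    rw [tr_mul3]
    refine Finset.sum_congr rfl fun a _ => Finset.sum_congr rfl fun b _ =>
      Finset.sum_congr rfl fun c _ => ?_
    rw [MA_apply hR]
    rfl
  have t4 : ∑ a, ∑ b, ∑ c, Jm R x a b * MQf R x b c * Am R x c a =
      (MJ R x * MQ R x * MA R x).trace := by
    rw [tr_mul3]
    refine Finset.sum_congr rfl fun a _ => Finset.sum_congr rfl fun b _ =>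
      Finset.sum_congr rfl fun c _ => ?_
    rw [MA_apply hR]
    rfl
  have t3 : wt (Jm R x) (Am R x) = (MJ R x * MA R x).trace := by
    unfold wt
    rw [tr_mul2]
    refine Finset.sum_congr rfl fun a _ => Finset.sum_congr rfl fun b _ => ?_
    rw [MA_apply hR, Amsymm hR]
    rfl
  have t5 : ∑ a, MQf R x a a = sc R - jx R x := tr_MQ hx
  rw [t1, t2, t3, t4, t5, tr_MA_J hR, tr_MA_Q hR hx, tr_QJA hR hx, tr_JQA hR hx]
  unfold Z2
  ring

end Pool.Agent.Run7.h82.P6
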