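import Pool.Agent.Run7.h82.P6.M21b

/-!
# The block `[2, 1]` for a curvature tensor: the two inequalities at a point of the sphere
-/

set_option autoImplicit false

open scoped BigOperators Matrix

namespace Pool.Agent.Run7.h82.P6

open Hopf6 Hopf6.B2

variable {R : Ten} {x : Fin 6 → ℝ}

/-- `b₀ π + b₁ J + b₂ π Ric π` as a function -/
noncomputable def XX (R : Ten) (x : Fin 6 → ℝ) (b0 b1 b2 : ℝ) (a b : Fin 6) : ℝ :=
  b0 * pr x a b + b1 * Jm R x a b + b2 * MQf R x a b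

theorem PM_apply (b0 b1 b2 : ℝ) (a b : Fin 6) : PM R x b0 b1 b2 a b = XX R x b0 b1 b2 a b := by
  unfold PM XX
  simp only [Matrix.add_apply, Matrix.smul_apply, MP_apply, smul_eq_mul, MJ, Matrix.of_apply]
  rfl

theorem XX_symm (hR : IsCurv R) (b0 b1 b2 : ℝ) (a b : Fin 6) :
    XX R x b0 b1 b2 b a = XX R x b0 b1 b2 a b := by
  unfold XX
  rw [prsymm a b, Jsymm hR a b, MQ_symm' hR a b]

theorem XX_kill (hR : IsCurv R) (hx : ∑ a, x a ^ 2 = 1) (b0 b1 b2 : ℝ) (b : Fin 6) :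
    ∑ a, x a * XX R x b0 b1 b2 a b = 0 := by
  have e : ∀ a, x a * XX R x b0 b1 b2 a b = b0 * (x a * pr x a b) + b1 * (x a * Jm R x a b)
      + b2 * (x a * MQf R x a b) := by
    intro a
    unfold XX
    ring
  simp only [e, Finset.sum_add_distrib, ← Finset.mul_sum, prkill hx, J1 hR, MQ_kill hR hx]
  ring

theorem XX_tr (hx : ∑ a, x a ^ 2 = 1) (b0 b1 b2 : ℝ) :
    ∑ a, XX R x b0 b1 b2 a a = 5 * b0 + b1 * jx R x + b2 * (sc R - jx R x) := by
  have t5 : ∑ a, MQf R x a a = sc R - jx R x := tr_MQ hx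
  unfold XX
  simp only [Finset.sum_add_distrib, ← Finset.mul_sum, prtr hx, trJ, t5]
  ring

theorem XX_sq (hR : IsCurv R) (hx : ∑ a, x a ^ 2 = 1) (b0 b1 b2 : ℝ) :
    ∑ c, ∑ d, XX R x b0 b1 b2 c d * XX R x b0 b1 b2 c d = f0 R x b0 b1 b2 := by
  rw [← tr_PP hR hx, tr_mul2]
  refine Finset.sum_congr rfl fun a _ => Finset.sum_congr rfl fun b _ => ?_
  rw [PM_apply, PM_apply, XX_symm hR b0 b1 b2 a b]

theorem XX_J (hR : IsCurv R) (hx : ∑ a, x a ^ 2 = 1) (b0 b1 b2 : ℝ) :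
    ∑ i, ∑ j, Jm R x i j * ∑ c, XX R x b0 b1 b2 i c * XX R x b0 b1 b2 j c =
      fJ R x b0 b1 b2 := by
  rw [← tr_PJP hR hx, tr_mul3]
  simp only [Finset.mul_sum]
  rw [← B1.sum_cyc' (fun c i j => PM R x b0 b1 b2 c i * MJ R x i j * PM R x b0 b1 b2 j c)]
  refine Finset.sum_congr rfl fun i _ => Finset.sum_congr rfl fun j _ =>
    Finset.sum_congr rfl fun c _ => ?_
  rw [PM_apply, PM_apply, XX_symm hR b0 b1 b2 i c]
  simp only [MJ, Matrix.of_apply]
  ring

theorem Phi_XX (W : Ten) (b0 b1 b2 : ℝ) : Phi W (XX R x b0 b1 b2) = fun i j =>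
    b0 * Phi W (pr x) i j + b1 * Phi W (Jm R x) i j + b2 * Phi W (MQf R x) i j := by
  funext i j
  unfold Phi XX
  simp only [Finset.mul_sum, ← Finset.sum_add_distrib]
  exact Finset.sum_congr rfl fun c _ => Finset.sum_congr rfl fun d _ => by ring

theorem Phi_pr {W : Ten} (hW : IsCurv W) (hWx : ∀ b c d, ∑ a, x a * W a b c d = 0)
    (htr : ∀ b d, ∑ a, W a b a d = 0) (i j : Fin 6) : Phi W (pr x) i j = 0 := by
  unfold Phi
  exact pr_con (fun d => B1.kx2 hW hWx i j d) (B1.tr24 hW htr i j)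

theorem wt_Phi (hR : IsCurv R) (hx : ∑ a, x a ^ 2 = 1) (b0 b1 b2 : ℝ) :
    ∑ i, ∑ j, Jm R x i j * Phi (Wt R x) (XX R x b0 b1 b2) i j = b1 * Z1 R x + b2 * Z2 R x := by
  have h1 : ∑ i, ∑ j, Jm R x i j * Phi (Wt R x) (XX R x b0 b1 b2) i j =
      wt (Jm R x) (Phi (Wt R x) (XX R x b0 b1 b2)) := rfl
  have h2 : Phi (Wt R x) (pr x) = fun _ _ => 0 := by
    funext i j
    exact Phi_pr (Wt_curv hR) (Wt_kill hR hx) (Wt_tr hR hx) i j
  rw [h1, Phi_XX, wt_add, wt_add, wt_smul, wt_smul, wt_smul, wt_Wt_J hR hx, wt_Wt_Q hR hx, h2]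
  unfold wt
  simp

/-- **The first inequality.** -/
theorem M1x (hR : IsCurv R) (hx : ∑ a, x a ^ 2 = 1) (hl : ∀ y, 0 ≤ quad R x y)
    (b0 b1 b2 γ : ℝ) (hb : 5 * b0 + b1 * jx R x + b2 * (sc R - jx R x) = 0) :
    0 ≤ 2 * (jx R x * f0 R x b0 b1 b2) - 5 / 2 * fJ R x b0 b1 b2
      + 4 * γ * (b1 * Z1 R x + b2 * Z2 R x) + γ ^ 2 * ((jx R x * nW R x - g221 R x) / 3) := by
  have hK : ∀ y : Fin 6 → ℝ, 0 ≤ ∑ a, ∑ b, Jm R x a b * (y a * y b) := by
    intro y
    rw [← quad_J]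
    exact hl y
  have h := q_ineq (W := Wt R x) (X := XX R x b0 b1 b2) hx (Wt_curv hR) (Wt_kill hR hx)
    (Wt_tr hR hx) (XX_symm hR b0 b1 b2) (XX_kill hR hx b0 b1 b2) (by rw [XX_tr hx, hb]) γ hK
  have h1 : ∑ i, ∑ j, Jm R x i j * pr x i j = jx R x := wt_pr hR
  rwa [h1, XX_sq hR hx, XX_J hR hx, wt_Phi hR hx, JSS_Wt hR hx] at h

/-- trace against the projection -/
theorem pr_trace {F : Fin 6 → Fin 6 → ℝ} (h : ∀ j, ∑ i, x i * F i j = 0) :
    ∑ i, ∑ j, pr x i j * F i j = ∑ i, F i i := by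
  have e : ∀ i j, pr x i j * F i j = (if i = j then F i j else 0) - x j * (x i * F i j) := by
    intro i j
    unfold pr
    split_ifs <;> ring
  simp only [e, Finset.sum_sub_distrib]
  have e2 : ∑ i, ∑ j, x j * (x i * F i j) = 0 := by
    rw [Finset.sum_comm]
    refine Finset.sum_eq_zero fun d _ => ?_
    rw [← Finset.mul_sum, h, mul_zero]
  rw [e2, sub_zero]
  simp

/-- **The second inequality.** -/
theorem M2x (hR : IsCurv R) (hx : ∑ a, x a ^ 2 = 1) (hu : ∀ y, quad R x y ≤ area2 x y)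
    (b0 b1 b2 γ : ℝ) (hb : 5 * b0 + b1 * jx R x + b2 * (sc R - jx R x) = 0) :
    0 ≤ 2 * ((5 - jx R x) * f0 R x b0 b1 b2) - 5 / 2 * (f0 R x b0 b1 b2 - fJ R x b0 b1 b2)
      - 4 * γ * (b1 * Z1 R x + b2 * Z2 R x)
      + γ ^ 2 * (nW R x - (jx R x * nW R x - g221 R x) / 3) := by
  have hWc := Wt_curv (x := x) hR
  have hWk := Wt_kill hR hx
  have hWt := Wt_tr hR hx
  have hXs := XX_symm (x := x) hR b0 b1 b2
  have hXk := XX_kill hR hx b0 b1 b2
  have hK : ∀ y : Fin 6 → ℝ, 0 ≤ ∑ a, ∑ b, (pr x a b - Jm R x a b) * (y a * y b) := by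
    intro y
    have e1 : ∑ a, ∑ b, (pr x a b - Jm R x a b) * (y a * y b) = area2 x y - quad R x y := by
      simp only [sub_mul, Finset.sum_sub_distrib]
      rw [← quad_J]
      congr 1
      have e : ∀ a b, pr x a b * (y a * y b) = (if a = b then y a * y b else 0)
          - (x a * y a) * (x b * y b) := by
        intro a b
        unfold pr
        split_ifs <;> ring
      simp only [e, Finset.sum_sub_distrib]
      unfold area2
      rw [hx, one_mul]
      congr 1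
      · simp [pow_two]
      · rw [pow_two, Finset.sum_mul_sum]
    rw [e1]
    linarith [hu y]
  have h := q_ineq (W := Wt R x) (X := XX R x b0 b1 b2) hx hWc hWk
    hWt hXs hXk (by rw [XX_tr hx, hb]) γ hK
  simp only [sub_mul, Finset.sum_sub_distrib] at h
  have h1 : ∑ i, ∑ j, Jm R x i j * pr x i j = jx R x := wt_pr hR
  have p1 : ∑ i, ∑ j, pr x i j * pr x i j = 5 := by
    rw [pr_trace (fun j => prkill hx j), prtr hx]
  have p2 : ∑ i, ∑ j, pr x i j * ∑ c, XX R x b0 b1 b2 i c * XX R x b0 b1 b2 j c =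
      f0 R x b0 b1 b2 := by
    rw [pr_trace, XX_sq hR hx]
    intro j
    have e : ∀ i, x i * ∑ c, XX R x b0 b1 b2 i c * XX R x b0 b1 b2 j c =
        ∑ c, XX R x b0 b1 b2 j c * (x i * XX R x b0 b1 b2 i c) := by
      intro i
      rw [Finset.mul_sum]
      exact Finset.sum_congr rfl fun c _ => by ring
    simp only [e]
    rw [Finset.sum_comm]
    refine Finset.sum_eq_zero fun c _ => ?_
    rw [← Finset.mul_sum, hXk, mul_zero]
  have p3 : ∑ i, ∑ j, pr x i j * Phi (Wt R x) (XX R x b0 b1 b2) i j = 0 := by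
    rw [pr_trace]
    · unfold Phi
      refine (B1.sum_cyc (fun c d i => XX R x b0 b1 b2 c d * Wt R x i c i d)).trans ?_
      refine Finset.sum_eq_zero fun c _ => Finset.sum_eq_zero fun d _ => ?_
      rw [← Finset.mul_sum, hWt, mul_zero]
    · intro j
      unfold Phi
      simp only [Finset.mul_sum]
      refine (B1.sum_cyc (fun c d i => x i * (XX R x b0 b1 b2 c d * Wt R x i c j d))).trans ?_
      refine Finset.sum_eq_zero fun c _ => Finset.sum_eq_zero fun d _ => ?_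
      have e : ∀ i, x i * (XX R x b0 b1 b2 c d * Wt R x i c j d) =
          XX R x b0 b1 b2 c d * (x i * Wt R x i c j d) := by
        intro i
        ring
      simp only [e, ← Finset.mul_sum, hWk, mul_zero]
  have p4 : ∑ i, ∑ j, pr x i j * SS (Wt R x) i j = nW R x := by
    rw [pr_trace]
    · rw [← nS_Wt hR hx]
      rfl
    · intro j
      unfold SS
      simp only [Finset.mul_sum]
      refine (B1.mv1 (fun i c d e => x i * (Wt R x i c d e * Wt R x j c d e))).trans ?_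
      refine Finset.sum_eq_zero fun c _ => Finset.sum_eq_zero fun d _ =>
        Finset.sum_eq_zero fun e _ => ?_
      have e1 : ∀ i, x i * (Wt R x i c d e * Wt R x j c d e) =
          Wt R x j c d e * (x i * Wt R x i c d e) := by
        intro i
        ring
      simp only [e1, ← Finset.mul_sum, hWk, mul_zero]
  rw [h1, p1, p2, p3, p4, XX_sq hR hx, XX_J hR hx, wt_Phi hR hx, JSS_Wt hR hx] at h
  linarith

end Pool.Agent.Run7.h82.P6
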