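import Pool.Agent.Run7.h82.P6.Cert
import Pool.Agent.TH570.Hopf.Scal

/-!
# Curvature pinched between `c` and `6 c`
-/

set_option autoImplicit false

open scoped BigOperators

namespace Pool.Agent.Run7.h82.P6

open Hopf6 Pool.Agent.TH570.Hopf

/-- **The sharp inequality in components.** -/
theorem six_comp {R : Ten} (hR : IsCurv R) {c : ℝ} (hc : 0 < c)
    (h0 : ∀ x y, c * area2 x y ≤ quad R x y) (h1 : ∀ x y, quad R x y ≤ 6 * c * area2 x y) :
    5760 * c ^ 3 + 24 * c ^ 2 * (sc R - 30 * c) ≤ gb R := by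
  obtain ⟨T, hTd⟩ : ∃ T : Ten, T = fun a b i j =>
      (1 / (5 * c)) * R a b i j + (-(1 / 5)) * UT a b i j := ⟨_, rfl⟩
  have hT : IsCurv T := by
    rw [hTd]
    exact comb_curv hR UT_curv _ _
  have hRT : R = fun a b i j => c * UT a b i j + (5 * c) * T a b i j := by
    funext a b i j
    rw [hTd]
    field_simp
    ring
  have hq : ∀ x y, quad T x y = (1 / (5 * c)) * quad R x y + (-(1 / 5)) * area2 x y := by
    intro x y
    rw [hTd, quad_comb, quad_UT]
  have hT0 : ∀ x y, 0 ≤ quad T x y := by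
    intro x y
    rw [hq]
    have h2 := mul_le_mul_of_nonneg_left (h0 x y) (by positivity : 0 ≤ 1 / (5 * c))
    have e : 1 / (5 * c) * (c * area2 x y) = 1 / 5 * area2 x y := by field_simp
    rw [e] at h2
    linarith
  have hT1 : ∀ x y, quad T x y ≤ area2 x y := by
    intro x y
    rw [hq]
    have h2 := mul_le_mul_of_nonneg_left (h1 x y) (by positivity : 0 ≤ 1 / (5 * c))
    have e : 1 / (5 * c) * (6 * c * area2 x y) = 6 / 5 * area2 x y := by field_simp
    rw [e] at h2
    linarith
  have hsc : sc T = (1 / (5 * c)) * sc R + (-(1 / 5)) * 30 := by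
    rw [hTd, sc_comb, sc_UT]
  have hg := gb_unit_comb hT c (5 * c)
  rw [← hRT] at hg
  have hm := main_ineq hT hT0 hT1
  have hc3 : 0 < c ^ 3 := by positivity
  have hE := sc_ET hT
  have h3 : sc R = 5 * c * sc T + 30 * c := by
    rw [hsc]
    field_simp
    ring
  have h4 := mul_nonneg hc3.le hm
  rw [hg, h3, hE]
  nlinarith

section rigid

variable {T : Ten}

/-- nonnegative form with vanishing diagonal -/
theorem form_zero {A : Fin 6 → Fin 6 → ℝ} (hs : ∀ a b, A b a = A a b)
    (hA : ∀ v : Fin 6 → ℝ, 0 ≤ ∑ a, ∑ b, A a b * (v a * v b)) (hd : ∀ a, A a a = 0)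
    (a b : Fin 6) : A a b = 0 := by
  rcases eq_or_ne a b with h | h
  · rw [h, hd]
  · have key : ∀ s : ℝ, ∑ i, ∑ j, A i j * ((sb a i + s * sb b i) * (sb a j + s * sb b j)) =
        A a a + s * A a b + s * A b a + s * s * A b b := by
      intro s
      have e : ∀ i j, A i j * ((sb a i + s * sb b i) * (sb a j + s * sb b j)) =
          A i j * (sb a i * sb a j) + s * (A i j * (sb a i * sb b j))
          + s * (A i j * (sb b i * sb a j)) + s * s * (A i j * (sb b i * sb b j)) := by
        intro i j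
        ring
      have e2 : ∀ k l : Fin 6, ∑ i, ∑ j, A i j * (sb k i * sb l j) = A k l := by
        intro k l
        simp [sb, Pi.single_apply]
      simp only [e, Finset.sum_add_distrib, ← Finset.mul_sum, e2]
    have h1 := hA (fun i => sb a i + 1 * sb b i)
    have h2 := hA (fun i => sb a i + (-1) * sb b i)
    rw [key 1, hd, hd, hs a b] at h1
    rw [key (-1), hd, hd, hs a b] at h2
    linarith

/-- a tensor with nonnegative sectional values and vanishing scalar contraction -/
theorem quad_zero (hT : IsCurv T) (h0 : ∀ x y, 0 ≤ quad T x y) (hs : sc T ≤ 0) (x y : Fin 6 → ℝ) :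
    quad T x y = 0 := by
  have hd0 : ∀ a, 0 ≤ Rc T a a := by
    intro a
    have h := Rc_psd h0 (sb a)
    have e : ∑ i, ∑ j, Rc T i j * (sb a i * sb a j) = Rc T a a := by
      simp [sb, Pi.single_apply]
    rwa [e] at h
  have hd : ∀ a, Rc T a a = 0 := by
    intro a
    have h1 : Rc T a a ≤ ∑ b, Rc T b b :=
      Finset.single_le_sum (f := fun b => Rc T b b) (fun b _ => hd0 b) (Finset.mem_univ a)
    have h2 : ∑ b, Rc T b b = sc T := rfl
    linarith [hd0 a]
  have hRc : ∀ a b, Rc T a b = 0 :=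
    form_zero (Rc_symm6 hT) (fun v => Rc_psd h0 v) hd
  -- the Jacobi operators vanish
  have hJd : ∀ c, Jm T x c c = 0 := by
    have h1 : ∑ c, quad T x (sb c) = 0 := by
      rw [← Rc_quad]
      simp [hRc]
    have h2 : ∀ c, quad T x (sb c) = Jm T x c c := by
      intro c
      rw [quad_J]
      simp [sb, Pi.single_apply]
    intro c
    rw [← h2]
    exact (Finset.sum_eq_zero_iff_of_nonneg fun c _ => h0 _ _).1 h1 c (Finset.mem_univ c)
  have hJ : ∀ a b, Jm T x a b = 0 :=
    form_zero (fun a b => (Jm_symm x hT a b).symm) (fun v => by rw [← quad_J]; exact h0 x v) hJd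
  rw [quad_J]
  simp [hJ]

end rigid

section
variable {V : Type*} [NormedAddCommGroup V] [InnerProductSpace ℝ V]
variable (e : OrthonormalBasis (Fin 6) ℝ V) {R : V → V → V → V → ℝ}

theorem six_tn_pos (hR : AlgCurv R) {c : ℝ} (hc : 0 < c) (h : Hopf6.SecIn R c (6 * c)) :
    5760 * c ^ 3 + 24 * c ^ 2 * (scalar e R - 30 * c) ≤ gb (tn e R) := by
  have h1 := six_comp (tn_curv e hR) hc
    (quad_ge e hR fun x y hx hy hxy => (h x y hx hy hxy).1)
    (quad_le e hR fun x y hx hy hxy => (h x y hx hy hxy).2)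
  rwa [sc_tn] at h1

theorem roundGB_kap (c : ℝ) : roundGB c = kap6 * c ^ 3 := rfl

/-- the pointwise bound for positive curvature -/
theorem six_pos (hR : AlgCurv R) {c : ℝ} (hc : 0 < c) (h : Hopf6.SecIn R c (6 * c)) :
    roundGB c * (1 + (scalar e R / c - 30) / 240) ≤ Hopf6.gbc e R := by
  have h1 := six_tn_pos e hR hc h
  have h2 := gbc_low e (c ^ 3 * (1 + (scalar e R / c - 30) / 240)) R (by
    refine le_trans (le_of_eq ?_) h1
    field_simp
    ring)
  rw [roundGB_kap]
  linarith

/-- the pointwise bound for negative curvature -/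
theorem six_neg (hR : AlgCurv R) {c : ℝ} (hc : 0 < c) (h : Hopf6.SecIn R (-(6 * c)) (-c)) :
    Hopf6.gbc e R ≤ -(roundGB c * (1 + (-scalar e R / c - 30) / 240)) := by
  have h1 := six_pos e (neg_curv hR) hc (neg_sec h)
  rw [scalar_neg, gbc_neg] at h1
  linarith

theorem scalar_neg_ge (hR : AlgCurv R) {c : ℝ} (h : SecLe R (-c)) : 30 * c ≤ -scalar e R := by
  have h1 := scalar_ge e (neg_curv hR) (c := c) (fun x y hx hy hxy => by
    have := h x y hx hy hxy
    linarith)
  rwa [scalar_neg] at h1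

theorem six_neg_round (hR : AlgCurv R) {c : ℝ} (hc : 0 < c)
    (h : Hopf6.SecIn R (-(6 * c)) (-c)) : Hopf6.gbc e R ≤ -(roundGB c) := by
  have h1 := six_neg e hR hc h
  have h2 := scalar_neg_ge e hR (c := c) fun x y hx hy hxy => (h x y hx hy hxy).2
  have h3 := roundGB_pos hc
  have h4 : 0 ≤ (-scalar e R / c - 30) / 240 := by
    have : 30 ≤ -scalar e R / c := by
      rw [le_div_iff₀ hc]
      exact h2
    linarith
  nlinarith [mul_nonneg h3.le h4]

/-- the tensor of constant curvature -/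
theorem const_of_scalar (hR : AlgCurv R) {c : ℝ} (h : SecLe R (-c))
    (hs : -scalar e R ≤ 30 * c) (x y : V) (hx : ‖x‖ = 1) (hy : ‖y‖ = 1)
    (hxy : inner ℝ x y = 0) : R x y x y = -c := by
  obtain ⟨T, hTd⟩ : ∃ T : Ten, T = fun a b i j =>
      (-1) * tn e R a b i j + (-c) * UT a b i j := ⟨_, rfl⟩
  have hT : IsCurv T := by
    rw [hTd]
    exact comb_curv (tn_curv e hR) UT_curv _ _
  have hq : ∀ x y, quad T x y = (-1) * quad (tn e R) x y + (-c) * area2 x y := by
    intro x y
    rw [hTd, quad_comb, quad_UT]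
  have hT0 : ∀ x y, 0 ≤ quad T x y := by
    intro x y
    rw [hq]
    have := quad_le e hR h x y
    linarith
  have hsc : sc T ≤ 0 := by
    rw [hTd, sc_comb, sc_UT, sc_tn]
    linarith
  have hz := quad_zero hT hT0 hsc
  have ex : ∀ v : V, vc e (fun a => inner ℝ (e a) v) = v := by
    intro v
    unfold vc
    exact e.sum_repr' v
  have h1 := hz (fun a => inner ℝ (e a) x) (fun a => inner ℝ (e a) y)
  rw [hq, quad_tn e hR, ← area2_vc e, ex, ex, hx, hy, hxy] at h1
  linarith

/-- **Rigidity.** -/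
theorem six_rigid (hR : AlgCurv R) {c : ℝ} (hc : 0 < c) (h : Hopf6.SecIn R (-(6 * c)) (-c))
    (he : Hopf6.gbc e R = -(roundGB c)) (x y : V) (hx : ‖x‖ = 1) (hy : ‖y‖ = 1)
    (hxy : inner ℝ x y = 0) : R x y x y = -c := by
  refine const_of_scalar e hR (fun x y hx hy hxy => (h x y hx hy hxy).2) ?_ x y hx hy hxy
  have h1 := six_neg e hR hc h
  rw [he] at h1
  have h3 := roundGB_pos hc
  by_contra hcon
  have h4 : 30 < -scalar e R / c := by
    rw [lt_div_iff₀ hc]
    linarith
  nlinarith [mul_pos h3 (by linarith : 0 < (-scalar e R / c - 30) / 240)]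

end

end Pool.Agent.Run7.h82.P6
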